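import Mathlib

/-!
# Nonnegative k-sums: definitions
-/

set_option autoImplicit false

namespace Pool.Agent.Lib.Helper9.KSums

open Finset

/-- The number `s_k(x)` of `k`-subsets `S` of the index set with `∑ i ∈ S, x i ≥ 0`. -/
noncomputable def numSums (k : ℕ) {n : ℕ} (x : Fin n → ℝ) : ℕ :=
  #{S ∈ powersetCard k (univ : Finset (Fin n)) | 0 ≤ ∑ i ∈ S, x i}

/-- The Manickam-Miklós-Singhi bound at `(n, k)`: every real vector of length `n` with nonnegative
sum has at least `(n-1).choose (k-1)` nonnegative `k`-sums. -/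
def BoundAt (k n : ℕ) : Prop :=
  ∀ x : Fin n → ℝ, 0 ≤ ∑ i, x i → (n - 1).choose (k - 1) ≤ numSums k x

/-- `N` is admissible for `k` if the bound holds for all `n ≥ N`; the number `f(k)` of the problem
is the least admissible `N`. -/
def Admissible (k N : ℕ) : Prop := ∀ n, N ≤ n → BoundAt k n

/-- The quantity `x_1 + x_{n-k+2} + ... + x_n` (indices from `1`), for a vector of length `n + 1`
indexed from `0`: the first entry plus the last `k - 1` entries. -/
noncomputable def extremeSum (k : ℕ) {n : ℕ} (x : Fin (n + 1) → ℝ) : ℝ :=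
  x 0 + ∑ i ∈ univ.filter (fun i : Fin (n + 1) => n + 2 ≤ (i : ℕ) + k), x i

end Pool.Agent.Lib.Helper9.KSums
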