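import Pool.Agent.Lib.Helper9.KSumsDefs

/-!
# Nonnegative k-sums: double counting and uniqueness
-/

set_option autoImplicit false

namespace Pool.Agent.Lib.Helper9.KSums

open Finset

section

variable {n k : ℕ}

/-- The family of `k`-sets with nonnegative sum. -/
noncomputable def fam (k : ℕ) (x : Fin n → ℝ) : Finset (Finset (Fin n)) :=
  {S ∈ powersetCard k (univ : Finset (Fin n)) | 0 ≤ ∑ i ∈ S, x i}

lemma mem_fam {x : Fin n → ℝ} {S : Finset (Fin n)} :
    S ∈ fam k x ↔ #S = k ∧ 0 ≤ ∑ i ∈ S, x i := by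
  simp [fam]

/-- The bound at `n - k` applied to the complement of a set with nonpositive sum. -/
lemma bound_compl (hb : BoundAt k (n - k)) (x : Fin n → ℝ) (hx : 0 ≤ ∑ i, x i)
    (S : Finset (Fin n)) (hS : #S = k) (hneg : ∑ i ∈ S, x i ≤ 0) :
    (n - k - 1).choose (k - 1) ≤ #{T ∈ fam k x | Disjoint S T} := by
  have hcard : #Sᶜ = n - k := by rw [card_compl, hS, Fintype.card_fin]
  let e : Fin (n - k) ↪ Fin n := (Sᶜ.orderEmbOfFin hcard).toEmbedding
  have hrange : univ.map e = Sᶜ := by
    ext i
    simp only [mem_map, mem_univ, true_and]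
    have := Finset.range_orderEmbOfFin Sᶜ hcard
    have h2 : i ∈ Set.range (Sᶜ.orderEmbOfFin hcard) ↔ i ∈ (Sᶜ : Finset (Fin n)) := by
      rw [this]; simp
    rw [← h2]
    rfl
  have hsum : 0 ≤ ∑ i, x (e i) := by
    have h1 : ∑ i, x (e i) = ∑ i ∈ Sᶜ, x i := by
      rw [← hrange, sum_map]
    have h2 : ∑ i ∈ S, x i + ∑ i ∈ Sᶜ, x i = ∑ i, x i := sum_add_sum_compl S x
    rw [h1]; linarith
  refine (hb (fun i => x (e i)) hsum).trans ?_
  unfold numSums
  apply card_le_card_of_injOn (fun T => T.map e)
  · intro T hT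
    simp only [coe_filter, mem_powersetCard, Set.mem_ofPred_eq] at hT
    simp only [coe_filter, Set.mem_ofPred_eq, mem_fam, card_map, sum_map]
    refine ⟨⟨hT.1.2, hT.2⟩, ?_⟩
    have hsub : T.map e ⊆ Sᶜ := by
      rw [← hrange]
      exact map_subset_map.mpr (subset_univ _)
    rw [disjoint_comm]
    exact Finset.disjoint_left.mpr fun i hi => by
      have := hsub hi
      simpa using this
  · intro T _ T' _ h
    exact map_injective e h

/-- Number of `k`-sets disjoint from a given `k`-set. -/
lemma card_disjoint (T : Finset (Fin n)) (hT : #T = k) :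
    #{S ∈ powersetCard k (univ : Finset (Fin n)) | Disjoint S T} = (n - k).choose k := by
  have : {S ∈ powersetCard k (univ : Finset (Fin n)) | Disjoint S T} = powersetCard k Tᶜ := by
    ext S
    simp only [mem_filter, mem_powersetCard, subset_univ, true_and]
    rw [subset_compl_iff_disjoint_right]
    tauto
  rw [this, card_powersetCard, card_compl, hT, Fintype.card_fin]

lemma choose_identity (hk : 1 ≤ k) (hn : 2 * k ≤ n) :
    (n - 1).choose k * (n - k - 1).choose (k - 1) = (n - 1).choose (k - 1) * (n - k).choose k := by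
  obtain ⟨j, rfl⟩ : ∃ j, k = j + 1 := ⟨k - 1, by omega⟩
  obtain ⟨d, rfl⟩ : ∃ d, n = 2 * (j + 1) + d := ⟨n - 2 * (j + 1), by omega⟩
  have h1 : 2 * (j + 1) + d - 1 = 2 * j + d + 1 := by omega
  have h2 : 2 * (j + 1) + d - (j + 1) - 1 = j + d := by omega
  have h3 : 2 * (j + 1) + d - (j + 1) = j + d + 1 := by omega
  have h4 : j + 1 - 1 = j := by omega
  rw [h1, h2, h3, h4]
  -- `C(2j+d+1, j+1) (j+1) = C(2j+d+1, j) (j+d+1)`
  have e1 : (2 * j + d + 1).choose (j + 1) * (j + 1) = (2 * j + d + 1).choose j * (j + d + 1) := by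
    have := Nat.choose_succ_right_eq (2 * j + d + 1) j
    rw [this]
    congr 1
    omega
  -- `(j+d+1) C(j+d, j) = C(j+d+1, j+1) (j+1)`
  have e2 : (j + d + 1) * (j + d).choose j = (j + d + 1).choose (j + 1) * (j + 1) :=
    Nat.add_one_mul_choose_eq (j + d) j
  have e3 : (2 * j + d + 1).choose (j + 1) * (j + d).choose j * (j + 1) =
      (2 * j + d + 1).choose j * (j + d + 1).choose (j + 1) * (j + 1) := by
    calc (2 * j + d + 1).choose (j + 1) * (j + d).choose j * (j + 1)
        = ((2 * j + d + 1).choose (j + 1) * (j + 1)) * (j + d).choose j := by ring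
      _ = (2 * j + d + 1).choose j * ((j + d + 1) * (j + d).choose j) := by rw [e1]; ring
      _ = (2 * j + d + 1).choose j * (j + d + 1).choose (j + 1) * (j + 1) := by rw [e2]; ring
  exact Nat.eq_of_mul_eq_mul_right (Nat.succ_pos j) e3

/-- Counting pairs (negative set, nonnegative set disjoint from it). -/
lemma double_count (x : Fin n → ℝ) :
    ∑ S ∈ powersetCard k (univ : Finset (Fin n)) \ fam k x, #{T ∈ fam k x | Disjoint S T} =
      ∑ T ∈ fam k x, #{S ∈ powersetCard k (univ : Finset (Fin n)) \ fam k x | Disjoint S T} := by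
  simp only [card_filter]
  exact sum_comm

lemma card_neg (x : Fin n → ℝ) (hk : 1 ≤ k) (hn : k ≤ n) :
    #(powersetCard k (univ : Finset (Fin n)) \ fam k x) + #(fam k x) =
      (n - 1).choose k + (n - 1).choose (k - 1) := by
  have hsub : fam k x ⊆ powersetCard k (univ : Finset (Fin n)) := filter_subset _ _
  rw [card_sdiff_add_card_eq_card hsub, card_powersetCard, card_univ, Fintype.card_fin]
  obtain ⟨j, rfl⟩ : ∃ j, k = j + 1 := ⟨k - 1, by omega⟩
  obtain ⟨d, rfl⟩ : ∃ d, n = d + 1 := ⟨n - 1, by omega⟩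
  simp only [Nat.add_sub_cancel]
  rw [Nat.choose_succ_succ, add_comm]

/-- The bound at `n - k` implies the bound at `n`. -/
lemma boundAt_step (hk : 1 ≤ k) (hn : 2 * k ≤ n) (hb : BoundAt k (n - k)) : BoundAt k n := by
  intro x hx
  by_contra hcon
  push Not at hcon
  have hF : #(fam k x) < (n - 1).choose (k - 1) := hcon
  have hneg := card_neg x hk (by omega : k ≤ n)
  have h1 : #(powersetCard k (univ : Finset (Fin n)) \ fam k x) * (n - k - 1).choose (k - 1) ≤
      ∑ S ∈ powersetCard k (univ : Finset (Fin n)) \ fam k x, #{T ∈ fam k x | Disjoint S T} := by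
    rw [← smul_eq_mul]
    apply card_nsmul_le_sum
    intro S hS
    rw [mem_sdiff, mem_powersetCard, mem_fam] at hS
    have hSk : #S = k := hS.1.2
    apply bound_compl hb x hx S hSk
    by_contra h
    push Not at h
    exact hS.2 ⟨hSk, h.le⟩
  have h2 : ∑ T ∈ fam k x, #{S ∈ powersetCard k (univ : Finset (Fin n)) \ fam k x | Disjoint S T} ≤
      #(fam k x) * (n - k).choose k := by
    rw [← smul_eq_mul]
    apply sum_le_card_nsmul
    intro T hT
    rw [← card_disjoint T (mem_fam.mp hT).1]
    apply card_le_card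
    intro S hS
    rw [mem_filter] at hS ⊢
    exact ⟨(mem_sdiff.mp hS.1).1, hS.2⟩
  rw [double_count] at h1
  have h3 := h1.trans h2
  have hpos : 0 < (n - k).choose k := Nat.choose_pos (by omega)
  have hid := choose_identity hk hn
  -- `#neg > C(n-1,k)`
  have hneg' : (n - 1).choose k ≤ #(powersetCard k (univ : Finset (Fin n)) \ fam k x) := by omega
  have h4 : (n - 1).choose k * (n - k - 1).choose (k - 1) ≤ #(fam k x) * (n - k).choose k :=
    (Nat.mul_le_mul_right _ hneg').trans h3
  rw [hid] at h4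
  have h5 : #(fam k x) * (n - k).choose k < (n - 1).choose (k - 1) * (n - k).choose k :=
    Nat.mul_lt_mul_of_pos_right hF hpos
  omega

/-- Equality forces the complement of every negative set to be extremal. -/
lemma equality_compl (hk : 1 ≤ k) (hn : 2 * k ≤ n) (hb : BoundAt k (n - k)) (x : Fin n → ℝ)
    (hx : 0 ≤ ∑ i, x i) (heq : #(fam k x) = (n - 1).choose (k - 1))
    (S : Finset (Fin n)) (hS : #S = k) (hneg : ∑ i ∈ S, x i < 0) :
    #{T ∈ fam k x | Disjoint S T} = (n - k - 1).choose (k - 1) := by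
  have hcn := card_neg x hk (by omega : k ≤ n)
  have hcn' : #(powersetCard k (univ : Finset (Fin n)) \ fam k x) = (n - 1).choose k := by omega
  have hmem : ∀ S ∈ powersetCard k (univ : Finset (Fin n)) \ fam k x,
      (n - k - 1).choose (k - 1) ≤ #{T ∈ fam k x | Disjoint S T} := by
    intro S hS
    rw [mem_sdiff, mem_powersetCard, mem_fam] at hS
    have hSk : #S = k := hS.1.2
    apply bound_compl hb x hx S hSk
    by_contra h
    push Not at h
    exact hS.2 ⟨hSk, h.le⟩
  have h2 : ∑ T ∈ fam k x, #{S ∈ powersetCard k (univ : Finset (Fin n)) \ fam k x | Disjoint S T} ≤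
      #(fam k x) * (n - k).choose k := by
    rw [← smul_eq_mul]
    apply sum_le_card_nsmul
    intro T hT
    rw [← card_disjoint T (mem_fam.mp hT).1]
    apply card_le_card
    intro S hS
    rw [mem_filter] at hS ⊢
    exact ⟨(mem_sdiff.mp hS.1).1, hS.2⟩
  have hid := choose_identity hk hn
  have htot : ∑ S ∈ powersetCard k (univ : Finset (Fin n)) \ fam k x,
      #{T ∈ fam k x | Disjoint S T} ≤
      ∑ _S ∈ powersetCard k (univ : Finset (Fin n)) \ fam k x, (n - k - 1).choose (k - 1) := by
    rw [sum_const, smul_eq_mul, hcn', hid, ← heq, double_count]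
    exact h2
  have hall := (sum_eq_sum_iff_of_le hmem).mp (le_antisymm (sum_le_sum hmem) htot)
  refine (hall S ?_).symm
  rw [mem_sdiff, mem_powersetCard, mem_fam]
  exact ⟨⟨subset_univ _, hS⟩, fun h => absurd h.2 (not_le.mpr hneg)⟩

end

section uniqueness

variable {N k : ℕ}

/-- The last `k - 1` indices. -/
def lastOnes (N k : ℕ) : Finset (Fin (N + 1)) :=
  univ.filter (fun i : Fin (N + 1) => N + 2 ≤ (i : ℕ) + k)

lemma mem_lastOnes {i : Fin (N + 1)} : i ∈ lastOnes N k ↔ N + 2 ≤ (i : ℕ) + k := by
  simp [lastOnes]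

lemma card_lastOnes (hk : 1 ≤ k) (hn : k ≤ N + 1) : #(lastOnes N k) = k - 1 := by
  have h : lastOnes N k = (univ.filter (fun i : Fin (N + 1) => (i : ℕ) < N + 2 - k))ᶜ := by
    ext i
    simp only [mem_lastOnes, mem_compl, mem_filter, mem_univ, true_and]
    omega
  rw [h, card_compl, Fintype.card_fin, Fin.card_filter_val_lt]
  omega

/-- The set formed by the index `j` and the last `k - 1` indices. -/
def testSet (N k : ℕ) (j : Fin (N + 1)) : Finset (Fin (N + 1)) := insert j (lastOnes N k)

lemma card_testSet (hk : 1 ≤ k) (hn : k ≤ N + 1) {j : Fin (N + 1)} (hj : (j : ℕ) + k ≤ N + 1) :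
    #(testSet N k j) = k := by
  unfold testSet
  rw [card_insert_of_notMem (by rw [mem_lastOnes]; omega), card_lastOnes hk hn]
  omega

lemma sum_testSet_le (x : Fin (N + 1) → ℝ) (hx : Antitone x) (hk : 1 ≤ k)
    {j : Fin (N + 1)} (hj : (j : ℕ) + k ≤ N + 1) :
    ∑ i ∈ testSet N k j, x i ≤ ∑ i ∈ testSet N k 0, x i := by
  unfold testSet
  have h0 : (0 : Fin (N + 1)) ∉ lastOnes N k := by
    rw [mem_lastOnes]
    simp
    omega
  rw [sum_insert (by rw [mem_lastOnes]; omega), sum_insert h0]
  have := hx (Fin.zero_le j)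
  linarith

lemma disjoint_testSet {j : Fin (N + 1)} {T : Finset (Fin (N + 1))} :
    Disjoint (testSet N k j) T ↔ j ∉ T ∧ ∀ i ∈ T, (i : ℕ) + k ≤ N + 1 := by
  unfold testSet
  rw [disjoint_insert_left]
  refine and_congr Iff.rfl ?_
  rw [Finset.disjoint_right]
  constructor
  · intro h i hi
    have := h hi
    rw [mem_lastOnes] at this
    omega
  · intro h i hi
    have := h i hi
    rw [mem_lastOnes]
    omega

/-- Replacing an index by the first one keeps a sum nonnegative. -/
lemma fam_insert_zero {x : Fin (N + 1) → ℝ} (hx : Antitone x) {T : Finset (Fin (N + 1))}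
    (hT : T ∈ fam k x) {b : Fin (N + 1)} (hb : b ∈ T) (h0 : (0 : Fin (N + 1)) ∉ T) :
    insert 0 (T.erase b) ∈ fam k x := by
  rw [mem_fam] at hT ⊢
  have h0' : (0 : Fin (N + 1)) ∉ T.erase b := fun h => h0 (mem_of_mem_erase h)
  constructor
  · rw [card_insert_of_notMem h0', card_erase_of_mem hb, hT.1]
    have : 0 < #T := card_pos.mpr ⟨b, hb⟩
    omega
  · rw [sum_insert h0']
    have h1 := add_sum_erase T x hb
    have h2 := hx (Fin.zero_le b)
    linarith [hT.2]

/-- The key exchange step. -/
lemma exchange (hk : 1 ≤ k) (hn : 2 * k < N + 1) (hb : BoundAt k (N + 1 - k))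
    (x : Fin (N + 1) → ℝ) (hx : Antitone x) (hsum : 0 ≤ ∑ i, x i)
    (heq : #(fam k x) = (N + 1 - 1).choose (k - 1))
    (hneg : ∑ i ∈ testSet N k 0, x i < 0)
    {T : Finset (Fin (N + 1))} (hT : T ∈ fam k x) (hTU : ∀ i ∈ T, (i : ℕ) + k ≤ N + 1)
    (h0 : (0 : Fin (N + 1)) ∈ T) {j : Fin (N + 1)} (hj : (j : ℕ) + k ≤ N + 1) (hjT : j ∉ T) :
    insert j (T.erase 0) ∈ fam k x := by
  have hcount : ∀ i : Fin (N + 1), (i : ℕ) + k ≤ N + 1 →
      #{T ∈ fam k x | Disjoint (testSet N k i) T} = (N + 1 - k - 1).choose (k - 1) := by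
    intro i hi
    apply equality_compl hk (by omega) hb x hsum heq _ (card_testSet hk (by omega) hi)
    exact lt_of_le_of_lt (sum_testSet_le x hx hk hi) hneg
  have hj0 : j ≠ 0 := fun h => hjT (h ▸ h0)
  set A0 := {T ∈ fam k x | Disjoint (testSet N k 0) T} with hA0
  set Aj := {T ∈ fam k x | Disjoint (testSet N k j) T} with hAj
  let φ : Finset (Fin (N + 1)) → Finset (Fin (N + 1)) :=
    fun T => if j ∈ T then insert 0 (T.erase j) else T
  have hmaps : ∀ T ∈ A0, φ T ∈ Aj := by
    intro T hT
    rw [hA0, mem_filter, disjoint_testSet] at hT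
    obtain ⟨hTf, hT0, hTU⟩ := hT
    rw [hAj, mem_filter, disjoint_testSet]
    simp only [φ]
    by_cases hjT : j ∈ T
    · rw [if_pos hjT]
      refine ⟨fam_insert_zero hx hTf hjT hT0, ?_, ?_⟩
      · rw [mem_insert, mem_erase]
        rintro (h | h)
        · exact hj0 h
        · exact h.1 rfl
      · intro i hi
        rw [mem_insert] at hi
        rcases hi with rfl | hi
        · simp; omega
        · exact hTU i (mem_of_mem_erase hi)
    · rw [if_neg hjT]
      exact ⟨hTf, hjT, hTU⟩
  have hinj : Set.InjOn φ A0 := by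
    intro T hT T' hT' h
    rw [mem_coe, hA0, mem_filter, disjoint_testSet] at hT hT'
    simp only [φ] at h
    by_cases h1 : j ∈ T <;> by_cases h2 : j ∈ T'
    · rw [if_pos h1, if_pos h2] at h
      have e1 : (insert 0 (T.erase j)).erase 0 = T.erase j :=
        erase_insert (fun h => hT.2.1 (mem_of_mem_erase h))
      have e2 : (insert 0 (T'.erase j)).erase 0 = T'.erase j :=
        erase_insert (fun h => hT'.2.1 (mem_of_mem_erase h))
      have e3 : T.erase j = T'.erase j := by rw [← e1, ← e2, h]
      rw [← insert_erase h1, ← insert_erase h2, e3]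
    · rw [if_pos h1, if_neg h2] at h
      exact absurd (h ▸ mem_insert_self 0 _) hT'.2.1
    · rw [if_neg h1, if_pos h2] at h
      exact absurd (h.symm ▸ mem_insert_self 0 _) hT.2.1
    · rw [if_neg h1, if_neg h2] at h
      exact h
  have hsurj : ∀ T ∈ Aj, ∃ T' ∈ A0, φ T' = T := by
    have himg : A0.image φ = Aj := by
      apply eq_of_subset_of_card_le
      · intro T hT
        rw [mem_image] at hT
        obtain ⟨T', hT', rfl⟩ := hT
        exact hmaps T' hT'
      · rw [card_image_of_injOn hinj, hA0, hAj, hcount j hj, hcount 0 (by simp; omega)]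
    intro T hT
    rw [← himg, mem_image] at hT
    exact hT
  have hTj : T ∈ Aj := by
    rw [hAj, mem_filter, disjoint_testSet]
    exact ⟨hT, hjT, hTU⟩
  obtain ⟨T', hT', hφ⟩ := hsurj T hTj
  rw [hA0, mem_filter, disjoint_testSet] at hT'
  simp only [φ] at hφ
  by_cases hjT' : j ∈ T'
  · rw [if_pos hjT'] at hφ
    have : insert j (T.erase 0) = T' := by
      rw [← hφ, erase_insert (fun h => hT'.2.1 (mem_of_mem_erase h)), insert_erase hjT']
    rw [this]
    exact hT'.1
  · rw [if_neg hjT'] at hφ
    rw [hφ] at hT'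
    exact absurd h0 hT'.2.1

/-- In the equality case the first index together with the last `k - 1` has nonnegative sum. -/
theorem testSet_nonneg (hk : 1 ≤ k) (hn : 2 * k < N + 1) (hb : BoundAt k (N + 1 - k))
    (x : Fin (N + 1) → ℝ) (hx : Antitone x) (hsum : 0 ≤ ∑ i, x i)
    (heq : #(fam k x) = (N + 1 - 1).choose (k - 1)) :
    0 ≤ ∑ i ∈ testSet N k 0, x i := by
  by_contra hcon
  push Not at hcon
  have hex := fun {T : Finset (Fin (N + 1))} (hT : T ∈ fam k x) (hTU : ∀ i ∈ T, (i : ℕ) + k ≤ N + 1)
    (h0 : (0 : Fin (N + 1)) ∈ T) {j : Fin (N + 1)} (hj : (j : ℕ) + k ≤ N + 1) (hjT : j ∉ T) =>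
    exchange hk hn hb x hx hsum heq hcon hT hTU h0 hj hjT
  have hcount := equality_compl hk (by omega) hb x hsum heq _
    (card_testSet hk (by omega : k ≤ N + 1) (j := 0) (by simp; omega)) hcon
  -- all `(k-1)`-sets `B` of indices `1, ..., N+1-k` satisfy `insert 0 B ∈ fam`
  have hB : ∀ m : ℕ, ∀ B Bt : Finset (Fin (N + 1)), (0 : Fin (N + 1)) ∉ B →
      (∀ i ∈ B, (i : ℕ) + k ≤ N + 1) → #B = k - 1 → insert 0 B ∈ fam k x →
      (0 : Fin (N + 1)) ∉ Bt → (∀ i ∈ Bt, (i : ℕ) + k ≤ N + 1) → #Bt = k - 1 →
      #(Bt \ B) = m → insert 0 Bt ∈ fam k x := by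
    intro m
    induction m with
    | zero =>
      intro B Bt hB0 hBU hBc hBf hBt0 hBtU hBtc hm
      have hsub : Bt ⊆ B := by
        rw [card_eq_zero, sdiff_eq_empty_iff_subset] at hm
        exact hm
      have : Bt = B := eq_of_subset_of_card_le hsub (by omega)
      rw [this]; exact hBf
    | succ m ih =>
      intro B Bt hB0 hBU hBc hBf hBt0 hBtU hBtc hm
      have hne : (Bt \ B).Nonempty := by rw [← card_pos]; omega
      obtain ⟨j, hj⟩ := hne
      rw [mem_sdiff] at hj
      have hne2 : (B \ Bt).Nonempty := by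
        rw [← card_pos]
        have h1 := card_sdiff_add_card_inter B Bt
        have h2 := card_sdiff_add_card_inter Bt B
        rw [inter_comm] at h2
        omega
      obtain ⟨b, hb'⟩ := hne2
      rw [mem_sdiff] at hb'
      have hjU := hBtU j hj.1
      have hj0 : j ≠ 0 := fun h => hBt0 (h ▸ hj.1)
      have hjT : j ∉ insert 0 B := by
        rw [mem_insert]
        rintro (h | h)
        · exact hj0 h
        · exact hj.2 h
      have step1 := hex hBf (by
        intro i hi
        rw [mem_insert] at hi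
        rcases hi with rfl | hi
        · simp; omega
        · exact hBU i hi) (mem_insert_self _ _) hjU hjT
      rw [erase_insert hB0] at step1
      have h0j : (0 : Fin (N + 1)) ∉ insert j B := by
        rw [mem_insert]
        rintro (h | h)
        · exact hj0 h.symm
        · exact hB0 h
      have step2 := fam_insert_zero hx step1 (mem_insert_of_mem hb'.1) h0j
      have hbj : b ≠ j := fun h => hj.2 (h ▸ hb'.1)
      rw [erase_insert_of_ne hbj.symm] at step2
      refine ih (insert j (B.erase b)) Bt ?_ ?_ ?_ step2 hBt0 hBtU hBtc ?_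
      · intro h
        rw [mem_insert] at h
        rcases h with h | h
        · exact hj0 h.symm
        · exact hB0 (mem_of_mem_erase h)
      · intro i hi
        rw [mem_insert] at hi
        rcases hi with rfl | hi
        · exact hjU
        · exact hBU i (mem_of_mem_erase hi)
      · rw [card_insert_of_notMem (fun h => hj.2 (mem_of_mem_erase h)), card_erase_of_mem hb'.1]
        have : 0 < #B := card_pos.mpr ⟨b, hb'.1⟩
        omega
      · have : Bt \ insert j (B.erase b) = (Bt \ B).erase j := by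
          ext i
          simp only [mem_sdiff, mem_insert, mem_erase]
          constructor
          · rintro ⟨h1, h2⟩
            push Not at h2
            refine ⟨h2.1, h1, fun h3 => ?_⟩
            have : i ≠ b := fun h => hb'.2 (h ▸ h1)
            exact h2.2 this h3
          · rintro ⟨h1, h2, h3⟩
            refine ⟨h2, ?_⟩
            rintro (h | h)
            · exact h1 h
            · exact h3 h.2
        rw [this, card_erase_of_mem (mem_sdiff.mpr hj)]
        omega
  -- a starting set
  have hcpos : 0 < (N + 1 - k - 1).choose (k - 1) := Nat.choose_pos (by omega)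
  obtain ⟨T0, hT0⟩ : ({T ∈ fam k x | Disjoint (testSet N k 0) T}).Nonempty := by
    rw [← card_pos, hcount]; exact hcpos
  rw [mem_filter, disjoint_testSet] at hT0
  obtain ⟨hT0f, hT00, hT0U⟩ := hT0
  have hT0c := (mem_fam.mp hT0f).1
  obtain ⟨b0, hb0⟩ : T0.Nonempty := by rw [← card_pos]; omega
  have hstart := fam_insert_zero hx hT0f hb0 hT00
  have hall : ∀ T : Finset (Fin (N + 1)), #T = k → (0 : Fin (N + 1)) ∉ T →
      (∀ i ∈ T, (i : ℕ) + k ≤ N + 1) → T ∈ fam k x := by
    intro T hTc hT0 hTU
    obtain ⟨j, hj⟩ : T.Nonempty := by rw [← card_pos]; omega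
    have h1 : insert 0 (T.erase j) ∈ fam k x := by
      refine hB _ (T0.erase b0) (T.erase j) ?_ ?_ ?_ hstart ?_ ?_ ?_ rfl
      · exact fun h => hT00 (mem_of_mem_erase h)
      · exact fun i hi => hT0U i (mem_of_mem_erase hi)
      · rw [card_erase_of_mem hb0]; omega
      · exact fun h => hT0 (mem_of_mem_erase h)
      · exact fun i hi => hTU i (mem_of_mem_erase hi)
      · rw [card_erase_of_mem hj]; omega
    have h0' : (0 : Fin (N + 1)) ∉ T.erase j := fun h => hT0 (mem_of_mem_erase h)
    have hj0 : j ≠ 0 := fun h => hT0 (h ▸ hj)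
    have h2 := hex h1 (by
      intro i hi
      rw [mem_insert] at hi
      rcases hi with rfl | hi
      · simp; omega
      · exact hTU i (mem_of_mem_erase hi)) (mem_insert_self _ _) (hTU j hj) (by
        rw [mem_insert]
        rintro (h | h)
        · exact hj0 h
        · exact absurd rfl (ne_of_mem_erase h))
    rwa [erase_insert h0', insert_erase hj] at h2
  -- count
  have hcard : #{T ∈ fam k x | Disjoint (testSet N k 0) T} = (N + 1 - k).choose k := by
    rw [← card_disjoint (testSet N k 0) (card_testSet hk (by omega) (by simp; omega))]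
    congr 1
    ext T
    rw [mem_filter, mem_filter, mem_powersetCard, disjoint_comm]
    constructor
    · rintro ⟨h1, h2⟩
      exact ⟨⟨subset_univ _, (mem_fam.mp h1).1⟩, h2⟩
    · rintro ⟨⟨-, h1⟩, h2⟩
      have h3 := disjoint_testSet.mp h2.symm
      exact ⟨hall T h1 h3.1 h3.2, h2⟩
  rw [hcount] at hcard
  obtain ⟨j, rfl⟩ : ∃ j, k = j + 1 := ⟨k - 1, by omega⟩
  obtain ⟨d, hd⟩ : ∃ d, N + 1 - (j + 1) = d + 1 := ⟨N + 1 - (j + 1) - 1, by omega⟩
  rw [hd] at hcard
  simp only [Nat.add_sub_cancel] at hcard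
  rw [Nat.choose_succ_succ'] at hcard
  have : 0 < d.choose (j + 1) := Nat.choose_pos (by omega)
  omega

/-- If the extreme test sum is nonnegative, every `k`-set containing the first index has
nonnegative sum. -/
lemma star_subset (hk : 1 ≤ k) (hn : k ≤ N + 1) (x : Fin (N + 1) → ℝ) (hx : Antitone x)
    (h0 : 0 ≤ ∑ i ∈ testSet N k 0, x i) {S : Finset (Fin (N + 1))} (hS : #S = k)
    (hS0 : (0 : Fin (N + 1)) ∈ S) : 0 ≤ ∑ i ∈ S, x i := by
  have h0L : (0 : Fin (N + 1)) ∉ lastOnes N k := by
    rw [mem_lastOnes]; simp; omega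
  unfold testSet at h0
  rw [sum_insert h0L] at h0
  rw [← add_sum_erase S x hS0]
  set B := S.erase 0 with hB
  set L := lastOnes N k with hL
  have hBc : #B = k - 1 := by rw [hB, card_erase_of_mem hS0, hS]
  have hLc : #L = k - 1 := card_lastOnes hk hn
  let θ : ℝ := x ⟨N + 1 - k, by omega⟩
  have h1 : (#(B \ L) : ℝ) * θ ≤ ∑ i ∈ B \ L, x i := by
    rw [← nsmul_eq_mul]
    apply card_nsmul_le_sum
    intro i hi
    rw [mem_sdiff, hL, mem_lastOnes] at hi
    apply hx
    rw [Fin.le_def]
    show (i : ℕ) ≤ N + 1 - k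
    omega
  have h2 : ∑ i ∈ L \ B, x i ≤ (#(L \ B) : ℝ) * θ := by
    rw [← nsmul_eq_mul]
    apply sum_le_card_nsmul
    intro i hi
    rw [mem_sdiff, hL, mem_lastOnes] at hi
    apply hx
    rw [Fin.le_def]
    show N + 1 - k ≤ (i : ℕ)
    omega
  have h3 : #(B \ L) = #(L \ B) := by
    have e1 := card_sdiff_add_card_inter B L
    have e2 := card_sdiff_add_card_inter L B
    rw [inter_comm] at e2
    omega
  have h4 : ∑ i ∈ B \ L, x i + ∑ i ∈ B ∩ L, x i = ∑ i ∈ B, x i := by
    rw [add_comm]; exact sum_inter_add_sum_sdiff B L x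
  have h5 : ∑ i ∈ L \ B, x i + ∑ i ∈ L ∩ B, x i = ∑ i ∈ L, x i := by
    rw [add_comm]; exact sum_inter_add_sum_sdiff L B x
  rw [inter_comm] at h5
  rw [h3] at h1
  linarith

/-- **Uniqueness**: if the bound holds at `N + 1 - k` and `N + 1 > 2k`, every extremal vector is a
star. -/
theorem uniqueness (hk : 1 ≤ k) (hn : 2 * k < N + 1) (hb : BoundAt k (N + 1 - k))
    (x : Fin (N + 1) → ℝ) (hx : Antitone x) (hsum : 0 ≤ ∑ i, x i)
    (heq : numSums k x = N.choose (k - 1)) :
    0 ≤ extremeSum k x ∧
      ∀ S : Finset (Fin (N + 1)), #S = k → (0 ≤ ∑ i ∈ S, x i ↔ (0 : Fin (N + 1)) ∈ S) := by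
  have heq' : #(fam k x) = (N + 1 - 1).choose (k - 1) := heq
  have h0 := testSet_nonneg hk hn hb x hx hsum heq'
  have h0L : (0 : Fin (N + 1)) ∉ lastOnes N k := by
    rw [mem_lastOnes]; simp; omega
  refine ⟨?_, ?_⟩
  · unfold testSet at h0
    rw [sum_insert h0L] at h0
    exact h0
  · -- the star is contained in the family and has the same size
    set star : Finset (Finset (Fin (N + 1))) :=
      {S ∈ powersetCard k (univ : Finset (Fin (N + 1))) | (0 : Fin (N + 1)) ∈ S} with hstar
    have hsub : star ⊆ fam k x := by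
      intro S hS
      rw [hstar, mem_filter, mem_powersetCard] at hS
      rw [mem_fam]
      exact ⟨hS.1.2, star_subset hk (by omega) x hx h0 hS.1.2 hS.2⟩
    have hstarcard : star.card = N.choose (k - 1) := by
      have h1 : star = (powersetCard (k - 1) (univ.erase (0 : Fin (N + 1)))).image (insert 0) := by
        ext S
        rw [hstar, mem_filter, mem_powersetCard, mem_image]
        constructor
        · rintro ⟨⟨-, h1⟩, h2⟩
          refine ⟨S.erase 0, ?_, insert_erase h2⟩
          rw [mem_powersetCard]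
          exact ⟨erase_subset_erase _ (subset_univ _), by rw [card_erase_of_mem h2, h1]⟩
        · rintro ⟨B, hB, rfl⟩
          rw [mem_powersetCard] at hB
          have : (0 : Fin (N + 1)) ∉ B := fun h => by
            have := hB.1 h
            simp at this
          refine ⟨⟨subset_univ _, ?_⟩, mem_insert_self _ _⟩
          rw [card_insert_of_notMem this, hB.2]
          omega
      rw [h1, card_image_of_injOn, card_powersetCard, card_erase_of_mem (mem_univ _), card_univ,
        Fintype.card_fin]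
      · rfl
      · intro B hB B' hB' h
        rw [mem_coe, mem_powersetCard] at hB hB'
        have e1 : (0 : Fin (N + 1)) ∉ B := fun h => by
          have := hB.1 h
          simp at this
        have e2 : (0 : Fin (N + 1)) ∉ B' := fun h => by
          have := hB'.1 h
          simp at this
        rw [← erase_insert e1, ← erase_insert e2]
        exact congrArg (fun s => s.erase 0) h
    have hfam : star = fam k x := by
      apply eq_of_subset_of_card_le hsub
      rw [hstarcard, heq']
      exact le_refl _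
    intro S hS
    constructor
    · intro h
      have : S ∈ star := by rw [hfam, mem_fam]; exact ⟨hS, h⟩
      rw [hstar, mem_filter] at this
      exact this.2
    · intro h
      exact star_subset hk (by omega) x hx h0 hS h

/-- The bound holds whenever `k` divides `n`. -/
lemma boundAt_mul (hk : 1 ≤ k) (c : ℕ) : BoundAt k (k * (c + 1)) := by
  induction c with
  | zero =>
    intro x hx
    have h1 : k * (0 + 1) = k := by ring
    have h2 : (k * (0 + 1) - 1).choose (k - 1) = 1 := by rw [h1, Nat.choose_self]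
    rw [h2]
    unfold numSums
    rw [Nat.one_le_iff_ne_zero, ← Nat.pos_iff_ne_zero, card_pos]
    refine ⟨univ, ?_⟩
    rw [mem_filter, mem_powersetCard]
    exact ⟨⟨subset_univ _, by rw [card_univ, Fintype.card_fin, h1]⟩, hx⟩
  | succ c ih =>
    apply boundAt_step hk
    · nlinarith
    · have : k * (c + 1 + 1) - k = k * (c + 1) := by
        rw [Nat.mul_succ]; omega
      rw [this]
      exact ih

end uniqueness

end Pool.Agent.Lib.Helper9.KSums
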