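import Mathlib

/-!
# Symmetric association schemes, formal self-duality, exact triple regularity, spin models
-/

set_option autoImplicit false

namespace Pool.Agent.Lib.Helper9.Spin

open Finset Matrix

/-- A symmetric association scheme with `d` classes on the finite set `X`; `rel x y` is the index of
the relation containing the pair `(x, y)`, relation `0` is the diagonal, all relations are nonempty
and symmetric, and `p i j k` are the intersection numbers. -/
structure SymmScheme (X : Type) [Fintype X] [DecidableEq X] (d : ℕ) where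
  rel : X → X → Fin (d + 1)
  rel_nonempty : ∀ i, ∃ x y, rel x y = i
  rel_diag : ∀ x y, rel x y = 0 ↔ x = y
  rel_symm : ∀ x y, rel x y = rel y x
  p : Fin (d + 1) → Fin (d + 1) → Fin (d + 1) → ℕ
  inter : ∀ i j x y, #{z | rel x z = i ∧ rel z y = j} = p i j (rel x y)

variable {X : Type} [Fintype X] [DecidableEq X] {d : ℕ}

/-- The adjacency matrices `A i`. -/
def SymmScheme.adj (S : SymmScheme X d) (i : Fin (d + 1)) : Matrix X X ℂ :=
  Matrix.of fun x y => if S.rel x y = i then 1 else 0

/-- The Bose-Mesner algebra, the complex span of the adjacency matrices. -/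
def SymmScheme.bm (S : SymmScheme X d) : Submodule ℂ (Matrix X X ℂ) :=
  Submodule.span ℂ (Set.range S.adj)

/-- The all-ones matrix `J`. -/
def allOnes (X : Type) : Matrix X X ℂ := Matrix.of fun _ _ => 1

/-- `E 0, ..., E d` are the primitive idempotents of the Bose-Mesner algebra (which has dimension
`d + 1`): nonzero pairwise orthogonal idempotents of the algebra with sum `I`. -/
def SymmScheme.IsPrimitiveIdempotents (S : SymmScheme X d)
    (E : Fin (d + 1) → Matrix X X ℂ) : Prop :=
  (∀ i, E i ∈ S.bm) ∧ (∀ i, E i ≠ 0) ∧ (∀ i j, E i * E j = if i = j then E i else 0) ∧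
    ∑ i, E i = 1

/-- Formal self-duality: the adjacency matrices (reordered by `σ`, which fixes `0`) and the
primitive idempotents `E i`, with `E 0 = |X|⁻¹ J`, satisfy `A i = ∑ j, P j i E j` and
`E i = |X|⁻¹ ∑ j, P j i A j` with one and the same matrix `P`. -/
def SymmScheme.FormallySelfDual (S : SymmScheme X d) : Prop :=
  ∃ (σ : Equiv.Perm (Fin (d + 1))) (E : Fin (d + 1) → Matrix X X ℂ)
    (P : Matrix (Fin (d + 1)) (Fin (d + 1)) ℂ),
    σ 0 = 0 ∧ S.IsPrimitiveIdempotents E ∧ E 0 = (Fintype.card X : ℂ)⁻¹ • allOnes X ∧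
    (∀ i, S.adj (σ i) = ∑ j, P j i • E j) ∧
    (∀ i, E i = (Fintype.card X : ℂ)⁻¹ • ∑ j, P j i • S.adj (σ j))

/-- The tensor `Δ(L, M, N)`. -/
def triTensor (L M N : Matrix X X ℂ) : X → X → X → ℂ := fun x y z => L x z * M x y * N y z

/-- The tensor `Y(L, M, N)`. -/
def starTensor (L M N : Matrix X X ℂ) : X → X → X → ℂ :=
  fun x y z => ∑ u, L x u * M y u * N z u

/-- The span of all `Δ(L, M, N)` with `L, M, N` in the Bose-Mesner algebra. -/
def SymmScheme.triSpan (S : SymmScheme X d) : Submodule ℂ (X → X → X → ℂ) :=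
  Submodule.span ℂ {T | ∃ L ∈ S.bm, ∃ M ∈ S.bm, ∃ N ∈ S.bm, T = triTensor L M N}

/-- The span of all `Y(L, M, N)` with `L, M, N` in the Bose-Mesner algebra. -/
def SymmScheme.starSpan (S : SymmScheme X d) : Submodule ℂ (X → X → X → ℂ) :=
  Submodule.span ℂ {T | ∃ L ∈ S.bm, ∃ M ∈ S.bm, ∃ N ∈ S.bm, T = starTensor L M N}

/-- Exact triple regularity: `Δ(𝔸) = Y(𝔸)`. -/
def SymmScheme.ExactlyTriplyRegular (S : SymmScheme X d) : Prop := S.triSpan = S.starSpan

/-- Spin models on `X`: symmetric, all entries nonzero, type II and type III. -/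
structure IsSpinModel (W : Matrix X X ℂ) : Prop where
  symm : ∀ x y, W x y = W y x
  ne_zero : ∀ x y, W x y ≠ 0
  typeII : ∀ a b, ∑ x, W a x / W b x = if a = b then (Fintype.card X : ℂ) else 0
  typeIII : ∃ D : ℂ, D ^ 2 = (Fintype.card X : ℂ) ∧
    ∀ a b c, ∑ x, W a x * W b x / W c x = D * (W a b / (W a c * W b c))

/-- `M` belongs to the Nomura algebra of `W`: all vectors `(W x b / W x c)_x` are eigenvectors. -/
def InNomura (W M : Matrix X X ℂ) : Prop :=
  ∀ b c, ∃ θ : ℂ, M.mulVec (fun x => W x b / W x c) = θ • (fun x => W x b / W x c)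

end Pool.Agent.Lib.Helper9.Spin
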