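import Pool.Agent.Lib.Helper9.SpinDefs

/-!
# The scheme with `m` classes of `m` points
-/

set_option autoImplicit false

namespace Pool.Agent.Lib.Helper9.Spin

open Finset Matrix

/-! ### The scheme -/

section scheme

variable (m : ℕ)

/-- The relation of two points: equal, in the same class, or in different classes. -/
def wrel (x y : Fin m × Fin m) : Fin 3 := if x = y then 0 else if x.1 = y.1 then 1 else 2

/-- Indicator of lying in the same class. -/
def cls : Matrix (Fin m × Fin m) (Fin m × Fin m) ℂ := Matrix.of fun x y => if x.1 = y.1 then 1 else 0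

/-- Indicator matrices of the three relations. -/
def wadj (i : Fin 3) : Matrix (Fin m × Fin m) (Fin m × Fin m) ℂ :=
  Matrix.of fun x y => if wrel m x y = i then 1 else 0

lemma wadj_zero : wadj m 0 = 1 := by
  ext x y
  simp only [wadj, wrel, Matrix.of_apply, Matrix.one_apply]
  by_cases h : x = y
  · simp [h]
  · by_cases h' : x.1 = y.1 <;> simp [h, h']

lemma wadj_one : wadj m 1 = cls m - 1 := by
  ext x y
  simp only [wadj, wrel, cls, Matrix.of_apply, Matrix.one_apply, Matrix.sub_apply]
  by_cases h : x = y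
  · simp [h]
  · by_cases h' : x.1 = y.1 <;> simp [h, h']

lemma wadj_two : wadj m 2 = allOnes _ - cls m := by
  ext x y
  simp only [wadj, wrel, cls, allOnes, Matrix.of_apply, Matrix.sub_apply]
  by_cases h : x = y
  · simp [h]
  · by_cases h' : x.1 = y.1 <;> simp [h, h']

lemma cls_mul_cls : cls m * cls m = (m : ℂ) • cls m := by
  ext x y
  simp only [cls, Matrix.mul_apply, Matrix.of_apply, Matrix.smul_apply, smul_eq_mul]
  rw [Fintype.sum_prod_type]
  have : ∀ i : Fin m, ∑ _j : Fin m, ((if x.1 = i then (1 : ℂ) else 0) * if i = y.1 then 1 else 0) =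
      if x.1 = i then (if i = y.1 then (m : ℂ) else 0) else 0 := by
    intro i
    rw [sum_const]
    by_cases h : x.1 = i <;> by_cases h' : i = y.1 <;> simp [h, h']
  simp_rw [this]
  simp

lemma cls_mul_allOnes : cls m * allOnes _ = (m : ℂ) • allOnes _ := by
  ext x y
  simp only [cls, allOnes, Matrix.mul_apply, Matrix.of_apply, Matrix.smul_apply, smul_eq_mul,
    mul_one]
  rw [Fintype.sum_prod_type]
  have : ∀ i : Fin m, ∑ _j : Fin m, (if x.1 = i then (1 : ℂ) else 0) =
      if x.1 = i then (m : ℂ) else 0 := by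
    intro i
    rw [sum_const]
    by_cases h : x.1 = i <;> simp [h]
  simp_rw [this]
  simp

lemma allOnes_mul_cls : allOnes _ * cls m = (m : ℂ) • allOnes _ := by
  ext x y
  simp only [cls, allOnes, Matrix.mul_apply, Matrix.of_apply, Matrix.smul_apply, smul_eq_mul,
    mul_one, one_mul]
  rw [Fintype.sum_prod_type]
  have : ∀ i : Fin m, ∑ _j : Fin m, (if i = y.1 then (1 : ℂ) else 0) =
      if i = y.1 then (m : ℂ) else 0 := by
    intro i
    rw [sum_const]
    by_cases h : i = y.1 <;> simp [h]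
  simp_rw [this]
  simp

lemma allOnes_mul_allOnes : allOnes (Fin m × Fin m) * allOnes (Fin m × Fin m) =
    ((m : ℂ) ^ 2) • allOnes _ := by
  ext x y
  simp [allOnes, Matrix.mul_apply, sq]

/-- Entries of products of relation matrices depend only on the relation. -/
lemma wadj_mul_apply (i j : Fin 3) : ∃ q : Fin 3 → ℂ, ∀ x y,
    (wadj m i * wadj m j) x y = q (wrel m x y) := by
  -- every combination of `1`, `cls`, `allOnes` has this property
  have key : ∀ M : Matrix (Fin m × Fin m) (Fin m × Fin m) ℂ,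
      (∃ α β γ : ℂ, M = α • 1 + β • cls m + γ • allOnes _) →
      ∃ q : Fin 3 → ℂ, ∀ x y, M x y = q (wrel m x y) := by
    rintro M ⟨α, β, γ, rfl⟩
    refine ⟨![α + β + γ, β + γ, γ], ?_⟩
    intro x y
    simp only [wrel, cls, allOnes, Matrix.add_apply, Matrix.smul_apply, Matrix.one_apply,
      Matrix.of_apply, smul_eq_mul]
    by_cases h : x = y
    · simp [h]
    · by_cases h' : x.1 = y.1 <;> simp [h, h']
  apply key
  have h1 := cls_mul_cls m
  have h2 := cls_mul_allOnes m
  have h3 := allOnes_mul_cls m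
  have h4 := allOnes_mul_allOnes m
  fin_cases i <;> fin_cases j
  · exact ⟨1, 0, 0, by
      show wadj m 0 * wadj m 0 = _
      rw [wadj_zero]; simp⟩
  · exact ⟨-1, 1, 0, by
      show wadj m 0 * wadj m 1 = _
      rw [wadj_zero, wadj_one]; simp; abel⟩
  · exact ⟨0, -1, 1, by
      show wadj m 0 * wadj m 2 = _
      rw [wadj_zero, wadj_two]; simp; abel⟩
  · exact ⟨-1, 1, 0, by
      show wadj m 1 * wadj m 0 = _
      rw [wadj_zero, wadj_one]; simp; abel⟩
  · exact ⟨1, m - 2, 0, by
      show wadj m 1 * wadj m 1 = _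
      rw [wadj_one, sub_mul, mul_sub, h1]; simp; module⟩
  · exact ⟨0, 1 - m, m - 1, by
      show wadj m 1 * wadj m 2 = _
      rw [wadj_one, wadj_two, sub_mul, mul_sub, h1, h2]; simp; module⟩
  · exact ⟨0, -1, 1, by
      show wadj m 2 * wadj m 0 = _
      rw [wadj_zero, wadj_two]; simp; abel⟩
  · exact ⟨0, 1 - m, m - 1, by
      show wadj m 2 * wadj m 1 = _
      rw [wadj_one, wadj_two, mul_sub, sub_mul, h1, h3]; simp; module⟩
  · exact ⟨0, m, m ^ 2 - 2 * m, by
      show wadj m 2 * wadj m 2 = _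
      rw [wadj_two, sub_mul, mul_sub, mul_sub, h1, h2, h3, h4]; simp; module⟩

/-- The number of points in given relations to two points depends only on their relation. -/
lemma card_inter (i j : Fin 3) (x y x' y' : Fin m × Fin m) (h : wrel m x y = wrel m x' y') :
    #{z | wrel m x z = i ∧ wrel m z y = j} = #{z | wrel m x' z = i ∧ wrel m z y' = j} := by
  obtain ⟨q, hq⟩ := wadj_mul_apply m i j
  have hc : ∀ x y, ((#{z | wrel m x z = i ∧ wrel m z y = j} : ℕ) : ℂ) = q (wrel m x y) := by
    intro x y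
    rw [← hq x y, Matrix.mul_apply]
    simp only [wadj, Matrix.of_apply]
    rw [card_filter]
    push_cast
    refine sum_congr rfl fun z _ => ?_
    by_cases h1 : wrel m x z = i <;> by_cases h2 : wrel m z y = j <;> simp [h1, h2]
  have := (hc x y).trans ((congrArg q h).trans (hc x' y').symm)
  exact_mod_cast this

lemma wrel_nonempty (hm : 2 ≤ m) (i : Fin 3) : ∃ x y, wrel m x y = i := by
  obtain ⟨k, rfl⟩ : ∃ k, m = k + 2 := ⟨m - 2, by omega⟩
  fin_cases i
  · exact ⟨(0, 0), (0, 0), by simp [wrel]⟩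
  · exact ⟨(0, 0), (0, 1), by simp [wrel]⟩
  · exact ⟨(0, 0), (1, 0), by simp [wrel]⟩

/-- The scheme with `m` classes of `m` points. -/
noncomputable def wscheme (hm : 2 ≤ m) : SymmScheme (Fin m × Fin m) 2 where
  rel := wrel m
  rel_nonempty := wrel_nonempty m hm
  rel_diag := by
    intro x y
    unfold wrel
    by_cases h : x = y
    · simp [h]
    · by_cases h' : x.1 = y.1 <;> simp [h, h']
  rel_symm := by
    intro x y
    unfold wrel
    simp only [eq_comm]
  p := fun i j k =>
    #{z | wrel m (wrel_nonempty m hm k).choose z = i ∧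
      wrel m z (wrel_nonempty m hm k).choose_spec.choose = j}
  inter := by
    intro i j x y
    exact card_inter m i j _ _ _ _ (wrel_nonempty m hm (wrel m x y)).choose_spec.choose_spec.symm

variable (hm : 2 ≤ m)

lemma adj_eq (i : Fin 3) : (wscheme m hm).adj i = wadj m i := rfl

lemma one_mem : (1 : Matrix (Fin m × Fin m) (Fin m × Fin m) ℂ) ∈ (wscheme m hm).bm := by
  rw [← wadj_zero, ← adj_eq m hm]
  exact Submodule.subset_span ⟨0, rfl⟩

lemma cls_mem : cls m ∈ (wscheme m hm).bm := by
  have h : cls m = wadj m 1 + wadj m 0 := by rw [wadj_one, wadj_zero]; abel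
  rw [h, ← adj_eq m hm, ← adj_eq m hm]
  exact Submodule.add_mem _ (Submodule.subset_span ⟨1, rfl⟩) (Submodule.subset_span ⟨0, rfl⟩)

lemma allOnes_mem : allOnes (Fin m × Fin m) ∈ (wscheme m hm).bm := by
  have h : allOnes (Fin m × Fin m) = wadj m 2 + cls m := by rw [wadj_two]; abel
  rw [h]
  refine Submodule.add_mem _ ?_ (cls_mem m hm)
  rw [← adj_eq m hm]
  exact Submodule.subset_span ⟨2, rfl⟩

lemma bm_le (V : Submodule ℂ (Matrix (Fin m × Fin m) (Fin m × Fin m) ℂ))
    (h1 : 1 ∈ V) (h2 : cls m ∈ V) (h3 : allOnes _ ∈ V) : (wscheme m hm).bm ≤ V := by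
  unfold SymmScheme.bm
  rw [Submodule.span_le]
  rintro _ ⟨i, rfl⟩
  fin_cases i
  · show (wscheme m hm).adj 0 ∈ V
    rw [adj_eq, wadj_zero]; exact h1
  · show (wscheme m hm).adj 1 ∈ V
    rw [adj_eq, wadj_one]; exact V.sub_mem h2 h1
  · show (wscheme m hm).adj 2 ∈ V
    rw [adj_eq, wadj_two]; exact V.sub_mem h3 h2

/-- Every element of the Bose-Mesner algebra is a combination of the three adjacency matrices. -/
lemma mem_bm_apply {W : Matrix (Fin m × Fin m) (Fin m × Fin m) ℂ} (hW : W ∈ (wscheme m hm).bm) :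
    ∃ t : Fin 3 → ℂ, ∀ x y, W x y = t (wrel m x y) := by
  unfold SymmScheme.bm at hW
  induction hW using Submodule.span_induction with
  | mem A hA =>
    obtain ⟨i, rfl⟩ := hA
    refine ⟨fun k => if k = i then 1 else 0, ?_⟩
    intro x y
    rfl
  | zero => exact ⟨0, fun x y => rfl⟩
  | add A B _ _ hA hB =>
    obtain ⟨t, ht⟩ := hA
    obtain ⟨s, hs⟩ := hB
    exact ⟨t + s, fun x y => by rw [Matrix.add_apply, ht, hs]; rfl⟩
  | smul c A _ hA =>
    obtain ⟨t, ht⟩ := hA
    exact ⟨c • t, fun x y => by rw [Matrix.smul_apply, ht]; rfl⟩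

/-! ### Formal self-duality -/

lemma formallySelfDual : (wscheme m hm).FormallySelfDual := by
  have hm0 : (m : ℂ) ≠ 0 := by
    have : m ≠ 0 := by omega
    exact_mod_cast this
  have hcard : (Fintype.card (Fin m × Fin m) : ℂ) = (m : ℂ) ^ 2 := by simp [sq]
  set E : Fin 3 → Matrix (Fin m × Fin m) (Fin m × Fin m) ℂ :=
    ![((m : ℂ) ^ 2)⁻¹ • allOnes _, (m : ℂ)⁻¹ • cls m - ((m : ℂ) ^ 2)⁻¹ • allOnes _,
      1 - (m : ℂ)⁻¹ • cls m] with hE
  have e0 : E 0 = ((m : ℂ) ^ 2)⁻¹ • allOnes _ := rfl
  have e1 : E 1 = (m : ℂ)⁻¹ • cls m - ((m : ℂ) ^ 2)⁻¹ • allOnes _ := rfl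
  have e2 : E 2 = 1 - (m : ℂ)⁻¹ • cls m := rfl
  have h1 := cls_mul_cls m
  have h2 := cls_mul_allOnes m
  have h3 := allOnes_mul_cls m
  have h4 := allOnes_mul_allOnes m
  have c1 : (m : ℂ)⁻¹ * (m : ℂ) = 1 := inv_mul_cancel₀ hm0
  set P : Matrix (Fin 3) (Fin 3) ℂ :=
    !![1, (m : ℂ) - 1, (m : ℂ) ^ 2 - m; 1, (m : ℂ) - 1, -(m : ℂ); 1, -1, 0] with hP
  have p00 : P 0 0 = 1 := rfl
  have p01 : P 0 1 = (m : ℂ) - 1 := rfl
  have p02 : P 0 2 = (m : ℂ) ^ 2 - m := rfl
  have p10 : P 1 0 = 1 := rfl
  have p11 : P 1 1 = (m : ℂ) - 1 := rfl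
  have p12 : P 1 2 = -(m : ℂ) := rfl
  have p20 : P 2 0 = 1 := rfl
  have p21 : P 2 1 = -1 := rfl
  have p22 : P 2 2 = 0 := rfl
  clear_value P E
  refine ⟨1, E, P, rfl, ⟨?_, ?_, ?_, ?_⟩, ?_, ?_, ?_⟩
  · intro i
    fin_cases i
    · show E 0 ∈ _
      rw [e0]
      exact Submodule.smul_mem _ _ (allOnes_mem m hm)
    · show E 1 ∈ _
      rw [e1]
      exact Submodule.sub_mem _ (Submodule.smul_mem _ _ (cls_mem m hm))
        (Submodule.smul_mem _ _ (allOnes_mem m hm))
    · show E 2 ∈ _
      rw [e2]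
      exact Submodule.sub_mem _ (one_mem m hm) (Submodule.smul_mem _ _ (cls_mem m hm))
  · obtain ⟨k, rfl⟩ : ∃ k, m = k + 2 := ⟨m - 2, by omega⟩
    intro i
    fin_cases i
    · intro h
      have := congrFun (congrFun h (0, 0)) (0, 0)
      simp only [Fin.zero_eta, e0, Matrix.smul_apply, allOnes, Matrix.of_apply, smul_eq_mul,
        mul_one, Matrix.zero_apply] at this
      exact pow_ne_zero 2 hm0 (inv_eq_zero.mp this)
    · intro h
      have := congrFun (congrFun h (0, 0)) (1, 0)
      simp [e1, allOnes, cls] at this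
      exact hm0 (by push_cast; exact this)
    · intro h
      have := congrFun (congrFun h (0, 0)) (0, 1)
      simp [e2, cls] at this
      exact hm0 (by push_cast; exact this)
  · intro i j
    fin_cases i <;> fin_cases j
    · show E 0 * E 0 = E 0
      rw [e0, smul_mul_smul_comm, h4, smul_smul]
      congr 1
      field_simp
    · show E 0 * E 1 = 0
      rw [e0, e1, mul_sub, smul_mul_smul_comm, smul_mul_smul_comm, h3, h4, smul_smul, smul_smul,
        ← sub_smul]
      convert zero_smul ℂ _ using 2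
      field_simp
      ring
    · show E 0 * E 2 = 0
      rw [e0, e2, mul_sub, mul_one, smul_mul_smul_comm, h3, smul_smul, ← sub_smul]
      convert zero_smul ℂ _ using 2
      field_simp
      ring
    · show E 1 * E 0 = 0
      rw [e0, e1, sub_mul, smul_mul_smul_comm, smul_mul_smul_comm, h2, h4, smul_smul, smul_smul,
        ← sub_smul]
      convert zero_smul ℂ _ using 2
      field_simp
      ring
    · show E 1 * E 1 = E 1
      rw [e1, sub_mul, mul_sub, mul_sub, smul_mul_smul_comm, smul_mul_smul_comm,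
        smul_mul_smul_comm, smul_mul_smul_comm, h1, h2, h3, h4]
      simp only [smul_smul]
      have a1 : (m : ℂ)⁻¹ * (m : ℂ)⁻¹ * (m : ℂ) = (m : ℂ)⁻¹ := by field_simp
      have a2 : (m : ℂ)⁻¹ * ((m : ℂ) ^ 2)⁻¹ * (m : ℂ) = ((m : ℂ) ^ 2)⁻¹ := by field_simp
      have a3 : ((m : ℂ) ^ 2)⁻¹ * (m : ℂ)⁻¹ * (m : ℂ) = ((m : ℂ) ^ 2)⁻¹ := by field_simp
      have a4 : ((m : ℂ) ^ 2)⁻¹ * ((m : ℂ) ^ 2)⁻¹ * (m : ℂ) ^ 2 = ((m : ℂ) ^ 2)⁻¹ := by field_simp
      rw [a1, a2, a3, a4]
      abel
    · show E 1 * E 2 = 0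
      rw [e1, e2, sub_mul, mul_sub, mul_sub, mul_one, mul_one, smul_mul_smul_comm,
        smul_mul_smul_comm, h1, h3]
      simp only [smul_smul]
      have a1 : (m : ℂ)⁻¹ * (m : ℂ)⁻¹ * (m : ℂ) = (m : ℂ)⁻¹ := by field_simp
      have a3 : ((m : ℂ) ^ 2)⁻¹ * (m : ℂ)⁻¹ * (m : ℂ) = ((m : ℂ) ^ 2)⁻¹ := by field_simp
      rw [a1, a3]
      abel
    · show E 2 * E 0 = 0
      rw [e0, e2, sub_mul, one_mul, smul_mul_smul_comm, h2, smul_smul, ← sub_smul]
      convert zero_smul ℂ _ using 2
      field_simp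
      ring
    · show E 2 * E 1 = 0
      rw [e1, e2, sub_mul, one_mul, mul_sub, smul_mul_smul_comm,
        smul_mul_smul_comm, h1, h2]
      simp only [smul_smul]
      have a1 : (m : ℂ)⁻¹ * (m : ℂ)⁻¹ * (m : ℂ) = (m : ℂ)⁻¹ := by field_simp
      have a3 : (m : ℂ)⁻¹ * ((m : ℂ) ^ 2)⁻¹ * (m : ℂ) = ((m : ℂ) ^ 2)⁻¹ := by field_simp
      rw [a1, a3]
      abel
    · show E 2 * E 2 = E 2
      rw [e2, sub_mul, one_mul, mul_sub, mul_one, smul_mul_smul_comm, h1]
      simp only [smul_smul]
      have a1 : (m : ℂ)⁻¹ * (m : ℂ)⁻¹ * (m : ℂ) = (m : ℂ)⁻¹ := by field_simp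
      rw [a1]
      abel
  · rw [Fin.sum_univ_three, e0, e1, e2]
    abel
  · rw [e0, hcard]
  · intro i
    rw [Fin.sum_univ_three]
    fin_cases i
    · show (wscheme m hm).adj 0 = P 0 0 • E 0 + P 1 0 • E 1 + P 2 0 • E 2
      rw [p00, p10, p20, adj_eq, wadj_zero, e0, e1, e2]
      simp only [one_smul]
      abel
    · show (wscheme m hm).adj 1 = P 0 1 • E 0 + P 1 1 • E 1 + P 2 1 • E 2
      rw [p01, p11, p21, adj_eq, wadj_one, e0, e1, e2]
      have : ((m : ℂ) - 1) • ((m : ℂ) ^ 2)⁻¹ • allOnes (Fin m × Fin m) +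
          ((m : ℂ) - 1) • ((m : ℂ)⁻¹ • cls m - ((m : ℂ) ^ 2)⁻¹ • allOnes _) +
          (-1 : ℂ) • (1 - (m : ℂ)⁻¹ • cls m) = ((m : ℂ)⁻¹ * m) • cls m - 1 := by module
      rw [this, c1, one_smul]
    · show (wscheme m hm).adj 2 = P 0 2 • E 0 + P 1 2 • E 1 + P 2 2 • E 2
      rw [p02, p12, p22, adj_eq, wadj_two, e0, e1, e2]
      have : ((m : ℂ) ^ 2 - m) • ((m : ℂ) ^ 2)⁻¹ • allOnes (Fin m × Fin m) +
          (-(m : ℂ)) • ((m : ℂ)⁻¹ • cls m - ((m : ℂ) ^ 2)⁻¹ • allOnes _) +
          (0 : ℂ) • (1 - (m : ℂ)⁻¹ • cls m) =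
          (((m : ℂ) ^ 2)⁻¹ * (m : ℂ) ^ 2) • allOnes _ - ((m : ℂ)⁻¹ * m) • cls m := by module
      rw [this, c1, inv_mul_cancel₀ (pow_ne_zero 2 hm0), one_smul, one_smul]
  · intro i
    rw [Fin.sum_univ_three, hcard]
    fin_cases i
    · show E 0 = ((m : ℂ) ^ 2)⁻¹ • (P 0 0 • (wscheme m hm).adj 0 + P 1 0 • (wscheme m hm).adj 1 +
        P 2 0 • (wscheme m hm).adj 2)
      rw [p00, p10, p20, adj_eq, adj_eq, adj_eq, wadj_zero, wadj_one, wadj_two, e0]
      congr 1
      simp only [one_smul]
      abel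
    · show E 1 = ((m : ℂ) ^ 2)⁻¹ • (P 0 1 • (wscheme m hm).adj 0 +
        P 1 1 • (wscheme m hm).adj 1 + P 2 1 • (wscheme m hm).adj 2)
      rw [p01, p11, p21, adj_eq, adj_eq, adj_eq, wadj_zero, wadj_one, wadj_two, e1]
      have : ((m : ℂ) ^ 2)⁻¹ • (((m : ℂ) - 1) • (1 : Matrix (Fin m × Fin m) (Fin m × Fin m) ℂ) +
          ((m : ℂ) - 1) • (cls m - 1) + (-1 : ℂ) • (allOnes _ - cls m)) =
          (((m : ℂ) ^ 2)⁻¹ * m) • cls m - ((m : ℂ) ^ 2)⁻¹ • allOnes _ := by module
      rw [this]
      have a : ((m : ℂ) ^ 2)⁻¹ * m = (m : ℂ)⁻¹ := by field_simp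
      rw [a]
    · show E 2 = ((m : ℂ) ^ 2)⁻¹ • (P 0 2 • (wscheme m hm).adj 0 +
        P 1 2 • (wscheme m hm).adj 1 + P 2 2 • (wscheme m hm).adj 2)
      rw [p02, p12, p22, adj_eq, adj_eq, adj_eq, wadj_zero, wadj_one, wadj_two, e2]
      rw [zero_smul, add_zero]
      have : ((m : ℂ) ^ 2)⁻¹ • (((m : ℂ) ^ 2 - m) •
          (1 : Matrix (Fin m × Fin m) (Fin m × Fin m) ℂ) +
          (-(m : ℂ)) • (cls m - 1)) =
          (((m : ℂ) ^ 2)⁻¹ * (m : ℂ) ^ 2) • (1 : Matrix (Fin m × Fin m) (Fin m × Fin m) ℂ) -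
          (((m : ℂ) ^ 2)⁻¹ * m) • cls m := by module
      rw [this]
      have a : ((m : ℂ) ^ 2)⁻¹ * m = (m : ℂ)⁻¹ := by field_simp
      rw [a, inv_mul_cancel₀ (pow_ne_zero 2 hm0), one_smul]

/-! ### Exact triple regularity -/

/-- A trilinear map sends the triple product of spans into `V` if it does so on generators. -/
lemma trilinear_mem {A F : Type} [AddCommGroup A] [Module ℂ A] [AddCommGroup F] [Module ℂ F]
    (T : A → A → A → F)
    (ha1 : ∀ a a' b c, T (a + a') b c = T a b c + T a' b c)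
    (hs1 : ∀ (r : ℂ) a b c, T (r • a) b c = r • T a b c)
    (ha2 : ∀ a b b' c, T a (b + b') c = T a b c + T a b' c)
    (hs2 : ∀ (r : ℂ) a b c, T a (r • b) c = r • T a b c)
    (ha3 : ∀ a b c c', T a b (c + c') = T a b c + T a b c')
    (hs3 : ∀ (r : ℂ) a b c, T a b (r • c) = r • T a b c)
    (s : Set A) (V : Submodule ℂ F) (h : ∀ a ∈ s, ∀ b ∈ s, ∀ c ∈ s, T a b c ∈ V)
    {a b c : A} (ha : a ∈ Submodule.span ℂ s) (hb : b ∈ Submodule.span ℂ s)
    (hc : c ∈ Submodule.span ℂ s) : T a b c ∈ V := by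
  induction ha using Submodule.span_induction with
  | mem a ha =>
    induction hb using Submodule.span_induction with
    | mem b hb =>
      induction hc using Submodule.span_induction with
      | mem c hc => exact h a ha b hb c hc
      | zero =>
        have := hs3 0 a b 0
        rw [zero_smul, zero_smul] at this
        rw [this]; exact V.zero_mem
      | add c c' _ _ hc hc' => rw [ha3]; exact V.add_mem hc hc'
      | smul r c _ hc => rw [hs3]; exact V.smul_mem _ hc
    | zero =>
      have := hs2 0 a 0 c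
      rw [zero_smul, zero_smul] at this
      rw [this]; exact V.zero_mem
    | add b b' _ _ hb hb' => rw [ha2]; exact V.add_mem hb hb'
    | smul r b _ hb => rw [hs2]; exact V.smul_mem _ hb
  | zero =>
    have := hs1 0 0 b c
    rw [zero_smul, zero_smul] at this
    rw [this]; exact V.zero_mem
  | add a a' _ _ ha ha' => rw [ha1]; exact V.add_mem ha ha'
  | smul r a _ ha => rw [hs1]; exact V.smul_mem _ ha

/-- The three generators. -/
def gens : Set (Matrix (Fin m × Fin m) (Fin m × Fin m) ℂ) := {1, cls m, allOnes _}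

lemma bm_eq_span : (wscheme m hm).bm = Submodule.span ℂ (gens m) := by
  apply le_antisymm
  · apply bm_le m hm
    · exact Submodule.subset_span (by simp [gens])
    · exact Submodule.subset_span (by simp [gens])
    · exact Submodule.subset_span (by simp [gens])
  · rw [Submodule.span_le]
    intro x hx
    simp only [gens, Set.mem_insert_iff, Set.mem_singleton_iff] at hx
    rcases hx with rfl | rfl | rfl
    · exact one_mem m hm
    · exact cls_mem m hm
    · exact allOnes_mem m hm

/-- Sums over all points of a function of the class. -/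
lemma sum_class (F : Fin m → ℂ) : ∑ u : Fin m × Fin m, F u.1 = m * ∑ i, F i := by
  rw [Fintype.sum_prod_type]
  simp [mul_sum]

lemma gens_symm {L : Matrix (Fin m × Fin m) (Fin m × Fin m) ℂ} (hL : L ∈ gens m)
    (x y : Fin m × Fin m) : L x y = L y x := by
  simp only [gens, Set.mem_insert_iff, Set.mem_singleton_iff] at hL
  rcases hL with rfl | rfl | rfl
  · simp only [Matrix.one_apply, eq_comm]
  · simp only [cls, Matrix.of_apply, eq_comm]
  · rfl

lemma gens_hadamard {L M : Matrix (Fin m × Fin m) (Fin m × Fin m) ℂ} (hL : L ∈ gens m)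
    (hM : M ∈ gens m) : Matrix.of (fun x y => L x y * M x y) ∈ gens m := by
  simp only [gens, Set.mem_insert_iff, Set.mem_singleton_iff] at hL hM ⊢
  rcases hL with rfl | rfl | rfl
  · left
    ext x y
    rcases hM with rfl | rfl | rfl
    · by_cases h : x = y <;> simp [Matrix.one_apply, h]
    · by_cases h : x = y <;> simp [Matrix.one_apply, cls, h]
    · by_cases h : x = y <;> simp [Matrix.one_apply, allOnes, h]
  · rcases hM with rfl | rfl | rfl
    · left
      ext x y
      by_cases h : x = y <;> simp [Matrix.one_apply, cls, h]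
    · right; left
      ext x y
      by_cases h : x.1 = y.1 <;> simp [cls, h]
    · right; left
      ext x y
      simp [cls, allOnes]
  · have : Matrix.of (fun x y => allOnes (Fin m × Fin m) x y * M x y) = M := by
      ext x y; simp [allOnes]
    rw [this]
    exact hM

lemma star_one_left (M N : Matrix (Fin m × Fin m) (Fin m × Fin m) ℂ)
    (hM : M ∈ gens m) (hN : N ∈ gens m) :
    starTensor 1 M N = triTensor N M (allOnes _) := by
  funext x y z
  simp only [starTensor, triTensor, Matrix.one_apply, allOnes, Matrix.of_apply, mul_one]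
  simp only [ite_mul, one_mul, zero_mul, sum_ite_eq, mem_univ, if_true]
  rw [gens_symm m hM y x, gens_symm m hN z x, mul_comm]

lemma star_one_mid (L N : Matrix (Fin m × Fin m) (Fin m × Fin m) ℂ) (hN : N ∈ gens m) :
    starTensor L 1 N = triTensor (allOnes _) L N := by
  funext x y z
  simp only [starTensor, triTensor, Matrix.one_apply, allOnes, Matrix.of_apply, one_mul]
  simp only [mul_ite, mul_one, mul_zero, ite_mul, zero_mul, sum_ite_eq, mem_univ, if_true]
  rw [gens_symm m hN z y]

lemma star_one_right (L M : Matrix (Fin m × Fin m) (Fin m × Fin m) ℂ) :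
    starTensor L M 1 = triTensor L (allOnes _) M := by
  funext x y z
  simp only [starTensor, triTensor, Matrix.one_apply, allOnes, Matrix.of_apply, mul_one]
  simp only [mul_ite, mul_one, mul_zero, sum_ite_eq, mem_univ, if_true]

lemma tri_one_left (M N : Matrix (Fin m × Fin m) (Fin m × Fin m) ℂ)
    (hM : M ∈ gens m) :
    triTensor 1 M N = starTensor 1 (Matrix.of (fun x y => M x y * N x y)) 1 := by
  funext x y z
  simp only [starTensor, triTensor, Matrix.one_apply, Matrix.of_apply]
  simp only [ite_mul, one_mul, zero_mul, mul_ite, mul_one, mul_zero, sum_ite_eq, mem_univ, if_true]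
  by_cases h : x = z
  · subst h
    simp only [if_true]
    rw [gens_symm m hM x y]
  · rw [if_neg h, if_neg h]

lemma tri_one_mid (L N : Matrix (Fin m × Fin m) (Fin m × Fin m) ℂ)
    (hL : L ∈ gens m) (hN : N ∈ gens m) :
    triTensor L 1 N = starTensor 1 1 (Matrix.of (fun x y => L x y * N x y)) := by
  funext x y z
  simp only [starTensor, triTensor, Matrix.one_apply, Matrix.of_apply]
  simp only [ite_mul, one_mul, zero_mul, mul_ite, mul_one, mul_zero, sum_ite_eq, mem_univ, if_true]
  by_cases h : x = y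
  · subst h
    simp only [if_true]
    rw [gens_symm m hL x z, gens_symm m hN x z]
  · rw [if_neg h, if_neg h]

lemma tri_one_right (L M : Matrix (Fin m × Fin m) (Fin m × Fin m) ℂ) :
    triTensor L M 1 = starTensor (Matrix.of (fun x y => L x y * M x y)) 1 1 := by
  funext x y z
  simp only [starTensor, triTensor, Matrix.one_apply, Matrix.of_apply]
  simp only [mul_ite, mul_one, mul_zero, sum_ite_eq, mem_univ, if_true]
  by_cases h : y = z
  · subst h
    simp
  · rw [if_neg h, if_neg h]

/-- The class function attached to a generator other than the identity. -/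
lemma gens_class {L : Matrix (Fin m × Fin m) (Fin m × Fin m) ℂ}
    (hL : L = cls m ∨ L = allOnes _) : ∃ G : Fin m → Fin m → ℂ,
      (∀ x y, L x y = G x.1 y.1) ∧ (G = (fun i j => if i = j then 1 else 0) ∨ G = fun _ _ => 1) := by
  rcases hL with rfl | rfl
  · exact ⟨fun i j => if i = j then 1 else 0, fun x y => rfl, Or.inl rfl⟩
  · exact ⟨fun _ _ => 1, fun x y => rfl, Or.inr rfl⟩

set_option maxHeartbeats 2000000 in
lemma exactlyTriplyRegular : (wscheme m hm).ExactlyTriplyRegular := by
  have hm0 : (m : ℂ) ≠ 0 := by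
    have : m ≠ 0 := by omega
    exact_mod_cast this
  have hbm : ∀ {L}, L ∈ gens m → L ∈ (wscheme m hm).bm := by
    intro L hL
    rw [bm_eq_span]
    exact Submodule.subset_span hL
  have hone : (1 : Matrix (Fin m × Fin m) (Fin m × Fin m) ℂ) ∈ gens m := by simp [gens]
  have hcls : cls m ∈ gens m := by simp [gens]
  have hall : allOnes (Fin m × Fin m) ∈ gens m := by simp [gens]
  unfold SymmScheme.ExactlyTriplyRegular
  apply le_antisymm
  · unfold SymmScheme.triSpan
    rw [Submodule.span_le]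
    rintro T ⟨L, hL, M, hM, N, hN, rfl⟩
    have hstar : ∀ {L M N}, L ∈ gens m → M ∈ gens m → N ∈ gens m →
        starTensor L M N ∈ (wscheme m hm).starSpan := by
      intro L M N hL hM hN
      exact Submodule.subset_span ⟨L, hbm hL, M, hbm hM, N, hbm hN, rfl⟩
    rw [bm_eq_span] at hL hM hN
    refine trilinear_mem (fun L M N => triTensor L M N) ?_ ?_ ?_ ?_ ?_ ?_ (gens m)
      (wscheme m hm).starSpan ?_ hL hM hN
    · intro a a' b c; funext x y z; simp only [triTensor, Matrix.add_apply, Pi.add_apply]; ring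
    · intro r a b c; funext x y z
      simp only [triTensor, Matrix.smul_apply, Pi.smul_apply, smul_eq_mul]; ring
    · intro a b b' c; funext x y z; simp only [triTensor, Matrix.add_apply, Pi.add_apply]; ring
    · intro r a b c; funext x y z
      simp only [triTensor, Matrix.smul_apply, Pi.smul_apply, smul_eq_mul]; ring
    · intro a b c c'; funext x y z; simp only [triTensor, Matrix.add_apply, Pi.add_apply]; ring
    · intro r a b c; funext x y z
      simp only [triTensor, Matrix.smul_apply, Pi.smul_apply, smul_eq_mul]; ring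
    · intro L hL M hM N hN
      show triTensor L M N ∈ _
      by_cases h1 : L = 1
      · subst h1
        rw [tri_one_left m M N hM]
        exact hstar hone (gens_hadamard m hM hN) hone
      by_cases h2 : M = 1
      · subst h2
        rw [tri_one_mid m L N hL hN]
        exact hstar hone hone (gens_hadamard m hL hN)
      by_cases h3 : N = 1
      · subst h3
        rw [tri_one_right m L M]
        exact hstar (gens_hadamard m hL hM) hone hone
      have hL' : L = cls m ∨ L = allOnes _ := by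
        simpa [gens, h1] using hL
      have hM' : M = cls m ∨ M = allOnes _ := by
        simpa [gens, h2] using hM
      have hN' : N = cls m ∨ N = allOnes _ := by
        simpa [gens, h3] using hN
      have haux : ∀ (r : ℂ) {L' M' N'}, r ≠ 0 → L' ∈ gens m → M' ∈ gens m → N' ∈ gens m →
          r • triTensor L M N = starTensor L' M' N' →
          triTensor L M N ∈ (wscheme m hm).starSpan := by
        intro r L' M' N' hr h1 h2 h3 heq
        have : triTensor L M N = r⁻¹ • starTensor L' M' N' := by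
          rw [← heq, smul_smul, inv_mul_cancel₀ hr, one_smul]
        rw [this]
        exact Submodule.smul_mem _ _ (hstar h1 h2 h3)
      have hsum : ∀ (F : Fin m → ℂ), ∑ u : Fin m × Fin m, F u.1 = m * ∑ i, F i := sum_class m
      rcases hL' with rfl | rfl <;> rcases hM' with rfl | rfl <;> rcases hN' with rfl | rfl
      · apply haux m hm0 hcls hcls hcls
        funext x y z
        simp only [triTensor, starTensor, cls, Matrix.of_apply, Pi.smul_apply, smul_eq_mul]
        rw [hsum (fun i => (if x.1 = i then (1 : ℂ) else 0) * (if y.1 = i then 1 else 0) *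
          (if z.1 = i then 1 else 0))]
        by_cases h1 : x.1 = y.1 <;> by_cases h2 : x.1 = z.1 <;> by_cases h3 : y.1 = z.1 <;>
          simp_all
      · apply haux m hm0 hcls hcls hcls
        funext x y z
        simp only [triTensor, starTensor, cls, allOnes, Matrix.of_apply, Pi.smul_apply, smul_eq_mul]
        rw [hsum (fun i => (if x.1 = i then (1 : ℂ) else 0) * (if y.1 = i then 1 else 0) *
          (if z.1 = i then 1 else 0))]
        by_cases h1 : x.1 = y.1 <;> by_cases h2 : x.1 = z.1 <;> by_cases h3 : y.1 = z.1 <;>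
          simp_all
      · apply haux m hm0 hcls hcls hcls
        funext x y z
        simp only [triTensor, starTensor, cls, allOnes, Matrix.of_apply, Pi.smul_apply, smul_eq_mul]
        rw [hsum (fun i => (if x.1 = i then (1 : ℂ) else 0) * (if y.1 = i then 1 else 0) *
          (if z.1 = i then 1 else 0))]
        by_cases h1 : x.1 = y.1 <;> by_cases h2 : x.1 = z.1 <;> by_cases h3 : y.1 = z.1 <;>
          simp_all
      · apply haux m hm0 hcls hall hcls
        funext x y z
        simp only [triTensor, starTensor, cls, allOnes, Matrix.of_apply, Pi.smul_apply, smul_eq_mul]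
        rw [hsum (fun i => (if x.1 = i then (1 : ℂ) else 0) * 1 *
          (if z.1 = i then 1 else 0))]
        by_cases h2 : x.1 = z.1 <;> simp_all
      · apply haux m hm0 hcls hcls hcls
        funext x y z
        simp only [triTensor, starTensor, cls, allOnes, Matrix.of_apply, Pi.smul_apply, smul_eq_mul]
        rw [hsum (fun i => (if x.1 = i then (1 : ℂ) else 0) * (if y.1 = i then 1 else 0) *
          (if z.1 = i then 1 else 0))]
        by_cases h1 : x.1 = y.1 <;> by_cases h2 : x.1 = z.1 <;> by_cases h3 : y.1 = z.1 <;>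
          simp_all
      · apply haux m hm0 hcls hcls hall
        funext x y z
        simp only [triTensor, starTensor, cls, allOnes, Matrix.of_apply, Pi.smul_apply, smul_eq_mul]
        rw [hsum (fun i => (if x.1 = i then (1 : ℂ) else 0) * (if y.1 = i then 1 else 0) * 1)]
        by_cases h2 : x.1 = y.1 <;> simp_all
      · apply haux m hm0 hall hcls hcls
        funext x y z
        simp only [triTensor, starTensor, cls, allOnes, Matrix.of_apply, Pi.smul_apply, smul_eq_mul]
        rw [hsum (fun i => 1 * (if y.1 = i then (1 : ℂ) else 0) * (if z.1 = i then 1 else 0))]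
        by_cases h2 : y.1 = z.1 <;> simp_all
      · apply haux ((m : ℂ) * m) (mul_ne_zero hm0 hm0) hall hall hall
        funext x y z
        simp [triTensor, starTensor, allOnes]
  · unfold SymmScheme.starSpan
    rw [Submodule.span_le]
    rintro T ⟨L, hL, M, hM, N, hN, rfl⟩
    have htri : ∀ {L M N}, L ∈ gens m → M ∈ gens m → N ∈ gens m →
        triTensor L M N ∈ (wscheme m hm).triSpan := by
      intro L M N hL hM hN
      exact Submodule.subset_span ⟨L, hbm hL, M, hbm hM, N, hbm hN, rfl⟩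
    rw [bm_eq_span] at hL hM hN
    refine trilinear_mem (fun L M N => starTensor L M N) ?_ ?_ ?_ ?_ ?_ ?_ (gens m)
      (wscheme m hm).triSpan ?_ hL hM hN
    · intro a a' b c; funext x y z
      simp only [starTensor, Matrix.add_apply, Pi.add_apply, add_mul, sum_add_distrib]
    · intro r a b c; funext x y z
      simp only [starTensor, Matrix.smul_apply, Pi.smul_apply, smul_eq_mul, mul_sum]
      exact sum_congr rfl fun u _ => by ring
    · intro a b b' c; funext x y z
      simp only [starTensor, Matrix.add_apply, Pi.add_apply, mul_add, add_mul, sum_add_distrib]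
    · intro r a b c; funext x y z
      simp only [starTensor, Matrix.smul_apply, Pi.smul_apply, smul_eq_mul, mul_sum]
      exact sum_congr rfl fun u _ => by ring
    · intro a b c c'; funext x y z
      simp only [starTensor, Matrix.add_apply, Pi.add_apply, mul_add, sum_add_distrib]
    · intro r a b c; funext x y z
      simp only [starTensor, Matrix.smul_apply, Pi.smul_apply, smul_eq_mul, mul_sum]
      exact sum_congr rfl fun u _ => by ring
    · intro L hL M hM N hN
      show starTensor L M N ∈ _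
      by_cases h1 : L = 1
      · subst h1
        rw [star_one_left m M N hM hN]
        exact htri hN hM hall
      by_cases h2 : M = 1
      · subst h2
        rw [star_one_mid m L N hN]
        exact htri hall hL hN
      by_cases h3 : N = 1
      · subst h3
        rw [star_one_right m L M]
        exact htri hL hall hM
      have hL' : L = cls m ∨ L = allOnes _ := by
        simpa [gens, h1] using hL
      have hM' : M = cls m ∨ M = allOnes _ := by
        simpa [gens, h2] using hM
      have hN' : N = cls m ∨ N = allOnes _ := by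
        simpa [gens, h3] using hN
      have haux : ∀ (r : ℂ) {L' M' N'}, L' ∈ gens m → M' ∈ gens m → N' ∈ gens m →
          starTensor L M N = r • triTensor L' M' N' →
          starTensor L M N ∈ (wscheme m hm).triSpan := by
        intro r L' M' N' h1 h2 h3 heq
        rw [heq]
        exact Submodule.smul_mem _ _ (htri h1 h2 h3)
      have hsum : ∀ (F : Fin m → ℂ), ∑ u : Fin m × Fin m, F u.1 = m * ∑ i, F i := sum_class m
      rcases hL' with rfl | rfl <;> rcases hM' with rfl | rfl <;> rcases hN' with rfl | rfl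
      · apply haux m hcls hcls hcls
        funext x y z
        simp only [triTensor, starTensor, cls, Matrix.of_apply, Pi.smul_apply, smul_eq_mul]
        rw [hsum (fun i => (if x.1 = i then (1 : ℂ) else 0) * (if y.1 = i then 1 else 0) *
          (if z.1 = i then 1 else 0))]
        by_cases h1 : x.1 = y.1 <;> by_cases h2 : x.1 = z.1 <;> by_cases h3 : y.1 = z.1 <;>
          simp_all
      · apply haux m hall hcls hall
        funext x y z
        simp only [triTensor, starTensor, cls, allOnes, Matrix.of_apply, Pi.smul_apply, smul_eq_mul]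
        rw [hsum (fun i => (if x.1 = i then (1 : ℂ) else 0) * (if y.1 = i then 1 else 0) * 1)]
        by_cases h2 : x.1 = y.1 <;> simp_all
      · apply haux m hcls hall hall
        funext x y z
        simp only [triTensor, starTensor, cls, allOnes, Matrix.of_apply, Pi.smul_apply, smul_eq_mul]
        rw [hsum (fun i => (if x.1 = i then (1 : ℂ) else 0) * 1 * (if z.1 = i then 1 else 0))]
        by_cases h2 : x.1 = z.1 <;> simp_all
      · apply haux m hall hall hall
        funext x y z
        simp only [triTensor, starTensor, cls, allOnes, Matrix.of_apply, Pi.smul_apply, smul_eq_mul]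
        rw [hsum (fun i => (if x.1 = i then (1 : ℂ) else 0) * 1 * 1)]
        simp
      · apply haux m hall hall hcls
        funext x y z
        simp only [triTensor, starTensor, cls, allOnes, Matrix.of_apply, Pi.smul_apply, smul_eq_mul]
        rw [hsum (fun i => 1 * (if y.1 = i then (1 : ℂ) else 0) * (if z.1 = i then 1 else 0))]
        by_cases h2 : y.1 = z.1 <;> simp_all
      · apply haux m hall hall hall
        funext x y z
        simp only [triTensor, starTensor, cls, allOnes, Matrix.of_apply, Pi.smul_apply, smul_eq_mul]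
        rw [hsum (fun i => 1 * (if y.1 = i then (1 : ℂ) else 0) * 1)]
        simp
      · apply haux m hall hall hall
        funext x y z
        simp only [triTensor, starTensor, cls, allOnes, Matrix.of_apply, Pi.smul_apply, smul_eq_mul]
        rw [hsum (fun i => 1 * 1 * (if z.1 = i then (1 : ℂ) else 0))]
        simp
      · apply haux ((m : ℂ) * m) hall hall hall
        funext x y z
        simp [triTensor, starTensor, allOnes]

end scheme

/-! ### Spin models in the scheme -/

section spin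

variable {k : ℕ}

/-- Evaluation of a sum over all points which takes few values. -/
lemma sum_points (F : Fin (k + 3) × Fin (k + 3) → ℂ) (A0 A1 A2 A3 B0 B1 G : ℂ)
    (h0 : F (0, 0) = A0) (h1 : F (0, 1) = A1) (h2 : F (0, 2) = A2)
    (h3 : ∀ j : Fin k, F (0, j.succ.succ.succ) = A3) (h4 : F (1, 0) = B0)
    (h5 : ∀ j : Fin (k + 2), F (1, j.succ) = B1)
    (h6 : ∀ (i : Fin (k + 1)) (j : Fin (k + 3)), F (i.succ.succ, j) = G) :
    ∑ x, F x = A0 + A1 + A2 + k * A3 + B0 + (k + 2) * B1 + (k + 1) * (k + 3) * G := by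
  rw [Fintype.sum_prod_type]
  rw [Fin.sum_univ_succ]
  have e0 : ∑ j : Fin (k + 3), F (0, j) = A0 + A1 + A2 + k * A3 := by
    rw [Fin.sum_univ_succ, Fin.sum_univ_succ, Fin.sum_univ_succ]
    simp_rw [h3]
    have e1 : (0 : Fin (k + 2)).succ = (1 : Fin (k + 3)) := rfl
    have e2 : (0 : Fin (k + 1)).succ.succ = (2 : Fin (k + 3)) := rfl
    rw [e1, e2, h0, h1, h2]
    simp
    ring
  rw [e0, Fin.sum_univ_succ]
  have e1 : ∑ j : Fin (k + 3), F ((0 : Fin (k + 2)).succ, j) = B0 + (k + 2) * B1 := by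
    rw [Fin.sum_univ_succ]
    have e1 : (0 : Fin (k + 2)).succ = (1 : Fin (k + 3)) := rfl
    rw [e1, h4]
    simp_rw [h5]
    simp
  rw [e1]
  simp_rw [h6]
  simp
  ring

lemma wrel_00_00 : wrel (k + 3) (0, 0) (0, 0) = 0 := by simp [wrel]
lemma fin01 : (0 : Fin (k + 3)) ≠ 1 := by
  intro h; have := congrArg Fin.val h; simp at this
lemma fin02 : (0 : Fin (k + 3)) ≠ 2 := by
  intro h
  have := congrArg Fin.val h
  have h2 : ((2 : Fin (k + 3)) : ℕ) = 2 := rfl
  rw [h2] at this
  simp at this
lemma fin12 : (1 : Fin (k + 3)) ≠ 2 := by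
  intro h
  have := congrArg Fin.val h
  have h2 : ((2 : Fin (k + 3)) : ℕ) = 2 := rfl
  have h1 : ((1 : Fin (k + 3)) : ℕ) = 1 := rfl
  rw [h2, h1] at this
  omega
lemma fin03 (j : Fin k) : (0 : Fin (k + 3)) ≠ j.succ.succ.succ := (Fin.succ_ne_zero _).symm
lemma fin13 (j : Fin k) : (1 : Fin (k + 3)) ≠ j.succ.succ.succ := by
  intro h
  have := congrArg Fin.val h
  have h1 : ((1 : Fin (k + 3)) : ℕ) = 1 := rfl
  rw [h1] at this
  simp only [Fin.val_succ] at this
  omega
lemma fin23 (j : Fin k) : (2 : Fin (k + 3)) ≠ j.succ.succ.succ := by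
  intro h
  have := congrArg Fin.val h
  have h1 : ((2 : Fin (k + 3)) : ℕ) = 2 := rfl
  rw [h1] at this
  simp only [Fin.val_succ] at this
  omega
lemma fin0s (i : Fin (k + 2)) : (0 : Fin (k + 3)) ≠ i.succ := (Fin.succ_ne_zero _).symm
lemma fin1ss (i : Fin (k + 1)) : (1 : Fin (k + 3)) ≠ i.succ.succ := by
  intro h
  have := congrArg Fin.val h
  have h1 : ((1 : Fin (k + 3)) : ℕ) = 1 := rfl
  rw [h1] at this
  simp only [Fin.val_succ] at this
  omega

lemma wrel_same {i j l : Fin (k + 3)} (h : j ≠ l) : wrel (k + 3) (i, j) (i, l) = 1 := by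
  simp [wrel, h]

lemma wrel_self (x : Fin (k + 3) × Fin (k + 3)) : wrel (k + 3) x x = 0 := by
  simp [wrel]

lemma wrel_diff {i j : Fin (k + 3)} (x y : Fin (k + 3)) (h : i ≠ j) :
    wrel (k + 3) (i, x) (j, y) = 2 := by
  simp [wrel, h]

/-- All spin models in the Bose-Mesner algebra are Potts models. -/
lemma potts_of_spin (W : Matrix (Fin (k + 3) × Fin (k + 3)) (Fin (k + 3) × Fin (k + 3)) ℂ)
    (t : Fin 3 → ℂ) (ht : ∀ x y, W x y = t (wrel (k + 3) x y)) (hW : IsSpinModel W) :
    t 1 = t 2 ∧ t 0 ≠ t 1 := by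
  set a := t 0 with ha
  set b := t 1 with hb
  set c := t 2 with hc
  have ha0 : a ≠ 0 := by
    have := hW.ne_zero (0, 0) (0, 0)
    rwa [ht, wrel_self] at this
  have hb0 : b ≠ 0 := by
    have := hW.ne_zero (0, 0) (0, 1)
    rwa [ht, wrel_same fin01] at this
  have hc0 : c ≠ 0 := by
    have := hW.ne_zero (0, 0) (1, 0)
    rwa [ht, wrel_diff _ _ fin01] at this
  -- values of the rows
  have r0 : ∀ j : Fin (k + 3), j ≠ 0 → W (0, 0) (0, j) = b := fun j hj => by
    rw [ht, wrel_same hj.symm]
  have r00 : W (0, 0) (0, 0) = a := by rw [ht, wrel_self]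
  have r1 : ∀ j : Fin (k + 3), j ≠ 1 → W (0, 1) (0, j) = b := fun j hj => by
    rw [ht, wrel_same hj.symm]
  have r11 : W (0, 1) (0, 1) = a := by rw [ht, wrel_self]
  have r2 : ∀ j : Fin (k + 3), j ≠ 2 → W (0, 2) (0, j) = b := fun j hj => by
    rw [ht, wrel_same hj.symm]
  have r22 : W (0, 2) (0, 2) = a := by rw [ht, wrel_self]
  have rc : ∀ (l i j : Fin (k + 3)), i ≠ 0 → W (0, l) (i, j) = c := fun l i j hi => by
    rw [ht, wrel_diff _ _ hi.symm]
  have s0 : ∀ (j : Fin (k + 3)), W (1, 0) (0, j) = c := fun j => by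
    rw [ht, wrel_diff _ _ fin01.symm]
  have s00 : W (1, 0) (1, 0) = a := by rw [ht, wrel_self]
  have s1 : ∀ j : Fin (k + 3), j ≠ 0 → W (1, 0) (1, j) = b := fun j hj => by
    rw [ht, wrel_same hj.symm]
  have s2 : ∀ (i j : Fin (k + 3)), i ≠ 1 → W (1, 0) (i, j) = c := fun i j hi => by
    rw [ht, wrel_diff _ _ hi.symm]
  have f10 : (1 : Fin (k + 3)) ≠ 0 := fin01.symm
  have f20 : (2 : Fin (k + 3)) ≠ 0 := fin02.symm
  have f21 : (2 : Fin (k + 3)) ≠ 1 := fin12.symm
  have f30 : ∀ j : Fin k, j.succ.succ.succ ≠ (0 : Fin (k + 3)) := fun j => (fin03 j).symm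
  have f31 : ∀ j : Fin k, j.succ.succ.succ ≠ (1 : Fin (k + 3)) := fun j => (fin13 j).symm
  have f32 : ∀ j : Fin k, j.succ.succ.succ ≠ (2 : Fin (k + 3)) := fun j => (fin23 j).symm
  have fs0 : ∀ j : Fin (k + 2), j.succ ≠ (0 : Fin (k + 3)) := fun j => (fin0s j).symm
  have fss1 : ∀ j : Fin (k + 1), j.succ.succ ≠ (1 : Fin (k + 3)) := fun j => (fin1ss j).symm
  have fss0 : ∀ j : Fin (k + 1), j.succ.succ ≠ (0 : Fin (k + 3)) := fun j => (fin0s _).symm
  -- type II, two points in the same class
  have e1 : a / b + b / a + 1 + k * 1 + 1 + (k + 2) * 1 + (k + 1) * (k + 3) * 1 = (0 : ℂ) := by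
    have h := hW.typeII (0, 0) (0, 1)
    rw [if_neg (by intro h; exact fin01 (Prod.mk.inj h).2)] at h
    rw [← h]
    symm
    apply sum_points
    · rw [r00, r1 0 fin01]
    · rw [r0 1 f10, r11]
    · rw [r0 2 f20, r1 2 f21, div_self hb0]
    · intro j; rw [r0 _ (f30 j), r1 _ (f31 j), div_self hb0]
    · rw [rc _ _ _ f10, rc _ _ _ f10, div_self hc0]
    · intro j; rw [rc _ _ _ f10, rc _ _ _ f10, div_self hc0]
    · intro i j; rw [rc _ _ _ (fss0 i), rc _ _ _ (fss0 i), div_self hc0]
  obtain ⟨D, -, hD⟩ := hW.typeIII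
  -- type III, `(α, β, α)`
  have e2 : a * b / a + b * a / b + b * b / b + k * (b * b / b) + c * c / c + (k + 2) * (c * c / c) +
      (k + 1) * (k + 3) * (c * c / c) = D * (b / (a * b)) := by
    have h := hD (0, 0) (0, 1) (0, 0)
    rw [r00, r0 1 f10, r1 0 fin01] at h
    rw [← h]
    symm
    apply sum_points
    · rw [r00, r1 0 fin01]
    · rw [r0 1 f10, r11]
    · rw [r0 2 f20, r1 2 f21]
    · intro j; rw [r0 _ (f30 j), r1 _ (f31 j)]
    · rw [rc _ _ _ f10, rc _ _ _ f10]
    · intro j; rw [rc _ _ _ f10, rc _ _ _ f10]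
    · intro i j; rw [rc _ _ _ (fss0 i), rc _ _ _ (fss0 i)]
  -- type III, three points in the same class
  have e3 : a * b / b + b * a / b + b * b / a + k * (b * b / b) + c * c / c + (k + 2) * (c * c / c) +
      (k + 1) * (k + 3) * (c * c / c) = D * (b / (b * b)) := by
    have h := hD (0, 0) (0, 1) (0, 2)
    rw [r0 1 f10, r0 2 f20, r1 2 f21] at h
    rw [← h]
    symm
    apply sum_points
    · rw [r00, r1 0 fin01, r2 0 fin02]
    · rw [r0 1 f10, r11, r2 1 fin12]
    · rw [r0 2 f20, r1 2 f21, r22]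
    · intro j; rw [r0 _ (f30 j), r1 _ (f31 j), r2 _ (f32 j)]
    · rw [rc _ _ _ f10, rc _ _ _ f10, rc _ _ _ f10]
    · intro j; rw [rc _ _ _ f10, rc _ _ _ f10, rc _ _ _ f10]
    · intro i j; rw [rc _ _ _ (fss0 i), rc _ _ _ (fss0 i), rc _ _ _ (fss0 i)]
  -- type III, `α, γ` in the same class and `β` in another one
  have e4 : a * c / b + b * c / a + b * c / b + k * (b * c / b) + c * a / c + (k + 2) * (c * b / c) +
      (k + 1) * (k + 3) * (c * c / c) = D * (c / (b * c)) := by
    have h := hD (0, 0) (1, 0) (0, 1)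
    rw [rc 0 1 0 f10, r0 1 f10, s0 1] at h
    rw [← h]
    symm
    apply sum_points
    · rw [r00, s0, r1 0 fin01]
    · rw [r0 1 f10, s0, r11]
    · rw [r0 2 f20, s0, r1 2 f21]
    · intro j; rw [r0 _ (f30 j), s0, r1 _ (f31 j)]
    · rw [rc _ _ _ f10, s00, rc _ _ _ f10]
    · intro j; rw [rc _ _ _ f10, s1 _ (fs0 j), rc _ _ _ f10]
    · intro i j; rw [rc _ _ _ (fss0 i), s2 _ _ (fss1 i), rc _ _ _ (fss0 i)]
  have hk : ((k : ℂ) + 3) ≠ 0 := by
    have : ((k + 3 : ℕ) : ℂ) ≠ 0 := Nat.cast_ne_zero.mpr (by omega)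
    push_cast at this
    exact this
  have hab : a ≠ b := by
    intro h
    rw [h] at e1
    rw [div_self hb0] at e1
    have : ((k : ℂ) + 3) * (k + 3) = 0 := by linear_combination e1
    exact hk (mul_self_eq_zero.mp this)
  refine ⟨?_, hab⟩
  -- simplify
  have e1' : a * a + b * b + (1 + k + 1 + (k + 2) + (k + 1) * (k + 3)) * (a * b) = 0 := by
    field_simp at e1
    linear_combination e1
  have e2' : a * (b + a + b + k * b + (1 + (k + 2) + (k + 1) * (k + 3)) * c) = D := by
    field_simp at e2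
    linear_combination e2
  have e3' : b * (a * (a + a + k * b + (1 + (k + 2) + (k + 1) * (k + 3)) * c) + b * b) = a * D := by
    field_simp at e3
    linear_combination e3
  have hDab : b * (a - b) = D := by
    have : (a - b) * (b * (a - b) - D) = 0 := by
      linear_combination e3' - b * e2'
    rcases mul_eq_zero.mp this with h | h
    · exact absurd (sub_eq_zero.mp h) hab
    · exact sub_eq_zero.mp h
  have e4' : c * (a / b + b / a) + c + k * c + a + (k + 2) * b + (k + 1) * (k + 3) * c = a - b := by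
    rw [← hDab] at e4
    field_simp at e4 ⊢
    linear_combination e4
  have : ((k : ℂ) + 3) * (b - c) = 0 := by linear_combination e4' - c * e1
  rcases mul_eq_zero.mp this with h | h
  · exact absurd h hk
  · exact sub_eq_zero.mp h

/-- The scheme is not contained in the Nomura algebra of a Potts model. -/
lemma not_nomura (W : Matrix (Fin (k + 3) × Fin (k + 3)) (Fin (k + 3) × Fin (k + 3)) ℂ)
    (t : Fin 3 → ℂ) (ht : ∀ x y, W x y = t (wrel (k + 3) x y)) (hW : IsSpinModel W)
    (h12 : t 1 = t 2) (h01 : t 0 ≠ t 1) : ¬ InNomura W (cls (k + 3)) := by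
  intro hN
  obtain ⟨θ, hθ⟩ := hN (0, 0) (1, 0)
  have hb0 : t 1 ≠ 0 := by
    have := hW.ne_zero (0, 0) (0, 1)
    rwa [ht, wrel_same fin01] at this
  have hk : ((k : ℂ) + 3) ≠ 0 := by
    have : ((k + 3 : ℕ) : ℂ) ≠ 0 := Nat.cast_ne_zero.mpr (by omega)
    push_cast at this
    exact this
  have hk2 : ((k : ℂ) + 2) ≠ 0 := by
    have : ((k + 2 : ℕ) : ℂ) ≠ 0 := Nat.cast_ne_zero.mpr (by omega)
    push_cast at this
    exact this
  -- the entries of the vector
  have hoff : ∀ x y, x ≠ y → W x y = t 1 := by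
    intro x y hxy
    rw [ht]
    unfold wrel
    rw [if_neg hxy]
    split_ifs
    · rfl
    · exact h12.symm
  have hdiag : ∀ x, W x x = t 0 := fun x => by rw [ht, wrel_self]
  -- the product with the class matrix sums over the class
  have hmul : ∀ (i j : Fin (k + 3)) (v : Fin (k + 3) × Fin (k + 3) → ℂ),
      (cls (k + 3)).mulVec v (i, j) = ∑ l : Fin (k + 3), v (i, l) := by
    intro i j v
    simp only [Matrix.mulVec, dotProduct, cls, Matrix.of_apply]
    rw [Fintype.sum_prod_type, sum_eq_single i]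
    · simp
    · intro b _ hb
      apply sum_eq_zero
      intro l _
      simp [hb.symm]
    · intro h; exact absurd (mem_univ _) h
  have p2 := congrFun hθ (2, 0)
  have p0 := congrFun hθ (0, 0)
  rw [hmul] at p2 p0
  simp only [Pi.smul_apply, smul_eq_mul] at p2 p0
  have v2 : ∀ l : Fin (k + 3), W (2, l) (0, 0) / W (2, l) (1, 0) = 1 := by
    intro l
    rw [hoff _ _ (by intro h; exact fin02 (Prod.mk.inj h).1.symm),
      hoff _ _ (by intro h; exact fin12 (Prod.mk.inj h).1.symm), div_self hb0]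
  have v0 : ∀ l : Fin (k + 3), W (0, l) (0, 0) / W (0, l) (1, 0) = if l = 0 then t 0 / t 1 else 1 := by
    intro l
    rw [hoff (0, l) (1, 0) (by intro h; exact fin01 (Prod.mk.inj h).1)]
    by_cases hl : l = 0
    · subst hl; rw [hdiag, if_pos rfl]
    · rw [hoff (0, l) (0, 0) (by intro h; exact hl (Prod.mk.inj h).2), if_neg hl, div_self hb0]
  simp_rw [v2] at p2
  simp_rw [v0] at p0
  rw [Fin.sum_univ_succ] at p0
  have hs : ∀ i : Fin (k + 2), (if i.succ = (0 : Fin (k + 3)) then t 0 / t 1 else (1 : ℂ)) = 1 :=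
    fun i => if_neg (Fin.succ_ne_zero i)
  simp_rw [hs] at p0
  simp at p2 p0
  rw [← p2] at p0
  have h3 : (k + 2) * (t 0 / t 1 - 1) = (0 : ℂ) := by linear_combination -p0
  rcases mul_eq_zero.mp h3 with h | h
  · exact hk2 h
  · rw [sub_eq_zero, div_eq_one_iff_eq hb0] at h
    exact h01 h

end spin

end Pool.Agent.Lib.Helper9.Spin
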