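import Pool.Agent.Lib.Helper9.ZiminReach

/-!
# Descent for walks in a self-similar word

`B` is a `0/1` matrix on the digits `0, ..., K-1`. A natural number is *allowed* if each of its
base-`K` digits may follow the next higher one according to `B`. The last digits of the allowed
numbers, in increasing order, form an infinite word; `W c a` counts the letters `a` below `c`.
We show that, if `B` satisfies a suitable nondegeneracy property, every configuration of cut
positions whose Parikh increments depend on the variable only yields a reachable set.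
-/

set_option autoImplicit false

namespace Pool.Agent.Lib.Helper9.Zimin

open Finset

/-- The numbers all of whose base-`K` digits are compatible with the next higher digit. -/
def allowed (K : ℕ) (B : ℕ → ℕ → Bool) (n : ℕ) : Bool :=
  if h : n = 0 ∨ K ≤ 1 then true
  else
    have : n / K < n := Nat.div_lt_self (by omega) (by omega)
    allowed K B (n / K) && B (n % K) ((n / K) % K)
termination_by n

/-- The indicator of `j` being allowed with last digit `a`. -/
def stp (K : ℕ) (B : ℕ → ℕ → Bool) (j a : ℕ) : ℤ :=
  if allowed K B j = true ∧ j % K = a then 1 else 0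

/-- Number of allowed `j < c` with last digit `a`. -/
def W (K : ℕ) (B : ℕ → ℕ → Bool) (c a : ℕ) : ℤ := ∑ j ∈ range c, stp K B j a

/-- The matrix `B` with integer entries. -/
def mu (B : ℕ → ℕ → Bool) (a b : ℕ) : ℤ := if B a b = true then 1 else 0

section

variable {K : ℕ} {B : ℕ → ℕ → Bool}

lemma allowed_zero : allowed K B 0 = true := by
  rw [allowed]; simp

lemma allowed_iff (hK : 2 ≤ K) (h00 : B 0 0 = true) (q a : ℕ) (ha : a < K) :
    allowed K B (K * q + a) = (allowed K B q && B a (q % K)) := by
  by_cases h : K * q + a = 0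
  · have hq : q = 0 := by
      rcases Nat.eq_zero_or_pos q with h1 | h1
      · exact h1
      · have : 0 < K * q := by positivity
        omega
    have ha0 : a = 0 := by omega
    subst hq; subst ha0
    simp [allowed_zero, h00]
  · rw [allowed]
    rw [dif_neg (by omega)]
    have h1 : (K * q + a) / K = q := by
      rw [Nat.mul_add_div (by omega), Nat.div_eq_of_lt ha, add_zero]
    have h2 : (K * q + a) % K = a := by
      rw [Nat.mul_add_mod, Nat.mod_eq_of_lt ha]
    simp only [h1, h2]

lemma stp_block (hK : 2 ≤ K) (h00 : B 0 0 = true) (q a' a : ℕ) (ha' : a' < K) :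
    stp K B (K * q + a') a =
      if a' = a then (if allowed K B q = true ∧ B a (q % K) = true then 1 else 0) else 0 := by
  unfold stp
  rw [allowed_iff hK h00 q a' ha']
  have h2 : (K * q + a') % K = a' := by
    rw [Nat.mul_add_mod, Nat.mod_eq_of_lt ha']
  rw [h2]
  by_cases h : a' = a
  · subst h; simp
  · simp [h]

lemma W_succ (c a : ℕ) : W K B (c + 1) a = W K B c a + stp K B c a := by
  unfold W; rw [sum_range_succ]

lemma W_add (c d a : ℕ) : W K B (c + d) a = W K B c a + ∑ i ∈ range d, stp K B (c + i) a := by
  unfold W; rw [sum_range_add]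

lemma W_partial (hK : 2 ≤ K) (h00 : B 0 0 = true) (q f a : ℕ) (hf : f ≤ K) :
    W K B (K * q + f) a = W K B (K * q) a +
      (if a < f ∧ allowed K B q = true ∧ B a (q % K) = true then 1 else 0) := by
  rw [W_add]
  congr 1
  rw [sum_congr rfl (fun i hi => stp_block hK h00 q i a (by rw [mem_range] at hi; omega))]
  rw [sum_ite_eq' (range f) a]
  by_cases h : a < f
  · simp [h]
  · simp [h]

lemma sum_mu_stp (hK : 2 ≤ K) (q a : ℕ) :
    ∑ b ∈ range K, mu B a b * stp K B q b =
      if allowed K B q = true ∧ B a (q % K) = true then 1 else 0 := by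
  have hq : q % K < K := Nat.mod_lt _ (by omega)
  rw [sum_eq_single (q % K)]
  · unfold mu stp
    by_cases h1 : allowed K B q = true <;> by_cases h2 : B a (q % K) = true <;> simp [h1, h2]
  · intro b _ hb
    unfold stp
    rw [if_neg (by rintro ⟨-, h⟩; exact hb h.symm), mul_zero]
  · intro h
    exact absurd (mem_range.mpr hq) h

lemma W_mul (hK : 2 ≤ K) (h00 : B 0 0 = true) (q a : ℕ) (ha : a < K) :
    W K B (K * q) a = ∑ b ∈ range K, mu B a b * W K B q b := by
  induction q with
  | zero => simp [W]
  | succ q ih =>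
    rw [Nat.mul_succ, W_partial hK h00 q K a le_rfl, ih]
    simp_rw [W_succ, mul_add]
    rw [sum_add_distrib, sum_mu_stp hK]
    simp [ha]

/-- Rounding of a cut position, with respect to the threshold `lo`. -/
def rnd (K lo c : ℕ) : ℕ := if c % K ≤ lo then c / K else c / K + 1

/-- The error of the rounding. -/
def err (K : ℕ) (B : ℕ → ℕ → Bool) (lo c a : ℕ) : ℤ :=
  if c % K ≤ lo then
    (if a < c % K ∧ allowed K B (c / K) = true ∧ B a ((c / K) % K) = true then 1 else 0)
  else
    - (if ¬ a < c % K ∧ allowed K B (c / K) = true ∧ B a ((c / K) % K) = true then 1 else 0)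

lemma W_eq (hK : 2 ≤ K) (h00 : B 0 0 = true) (lo c a : ℕ) (ha : a < K) :
    W K B c a = ∑ b ∈ range K, mu B a b * W K B (rnd K lo c) b + err K B lo c a := by
  have hc : c = K * (c / K) + c % K := (Nat.div_add_mod c K).symm
  have hlt : c % K < K := Nat.mod_lt _ (by omega)
  conv_lhs => rw [hc]
  rw [W_partial hK h00 _ _ _ hlt.le, W_mul hK h00 _ _ ha]
  unfold rnd err
  by_cases h : c % K ≤ lo
  · rw [if_pos h, if_pos h]
  · rw [if_neg h, if_neg h]
    simp_rw [W_succ, mul_add]
    rw [sum_add_distrib, sum_mu_stp hK]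
    by_cases h1 : a < c % K <;> by_cases h2 : allowed K B (c / K) = true ∧
      B a ((c / K) % K) = true <;> simp [h1, h2]

lemma rnd_mono (lo : ℕ) {c d : ℕ} (h : c ≤ d) : rnd K lo c ≤ rnd K lo d := by
  have h1 : c / K ≤ d / K := Nat.div_le_div_right h
  unfold rnd
  rcases Nat.lt_or_ge (c / K) (d / K) with h2 | h2
  · split_ifs <;> omega
  · have h3 : c / K = d / K := le_antisymm h1 h2
    have h4 : c % K ≤ d % K := by
      have e1 := Nat.div_add_mod c K
      have e2 := Nat.div_add_mod d K
      rw [h3] at e1
      omega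
    split_ifs <;> omega

lemma rnd_lt (hK : 3 ≤ K) {lo : ℕ} (hlo : 1 ≤ lo) {c : ℕ} (hc : 0 < c) : rnd K lo c < c := by
  unfold rnd
  have h1 : c / K ≤ c / 3 := Nat.div_le_div_left hK (by norm_num)
  have h2 := Nat.div_add_mod c K
  split_ifs with h
  · omega
  · rcases Nat.lt_or_ge c 2 with h3 | h3
    · have : c = 1 := by omega
      subst this
      exfalso
      apply h
      rw [Nat.mod_eq_of_lt (by omega)]
      exact hlo
    · omega

/-- The digits below the threshold have error `0` or `1`, the others `0` or `-1`. -/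
lemma err_low {lo : ℕ} {c : ℕ} {a : ℕ}
    (ha : a < lo) : err K B lo c a = 0 ∨ err K B lo c a = 1 := by
  unfold err
  by_cases h : c % K ≤ lo
  · rw [if_pos h]
    split_ifs <;> simp
  · rw [if_neg h]
    have : a < c % K := by omega
    simp [this]

lemma err_high {lo : ℕ} {c : ℕ} {a : ℕ}
    (ha : lo ≤ a) : err K B lo c a = 0 ∨ err K B lo c a = -1 := by
  unfold err
  by_cases h : c % K ≤ lo
  · rw [if_pos h]
    have : ¬ a < c % K := by omega
    simp [this]
  · rw [if_neg h]
    split_ifs <;> simp

lemma err_mid {lo hi : ℕ} {c : ℕ} (hc : c % K ≤ lo ∨ hi ≤ c % K) {a : ℕ}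
    (ha : lo ≤ a) (ha' : a < hi) : err K B lo c a = 0 := by
  unfold err
  by_cases h : c % K ≤ lo
  · rw [if_pos h]
    have : ¬ a < c % K := by omega
    simp [this]
  · rw [if_neg h]
    have : a < c % K := by omega
    simp [this]

lemma W_mono (a : ℕ) {c d : ℕ} (h : c ≤ d) : W K B c a ≤ W K B d a := by
  unfold W
  apply sum_le_sum_of_subset_of_nonneg
  · exact range_subset_range.mpr h
  · intro i _ _
    unfold stp
    split_ifs <;> simp

end

/-- Adding a whole family of walks. -/
lemma reach_family {m : ℕ} {v : ℕ → ℕ} {S : Finset ℕ} (hS : Reach m v S) (Φ : ℕ → ℕ → ℤ)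
    (h01 : ∀ a i, Φ a i = 0 ∨ Φ a i = 1)
    (hc : ∀ a i j, i < m → j < m → v i = v j → Φ a (i + 1) - Φ a i = Φ a (j + 1) - Φ a j)
    (hpos : ∀ a i, i < m → v i ∉ S → Φ a i ≤ Φ a (i + 1)) (n : ℕ) :
    ∃ T, Reach m v T ∧ S ⊆ T ∧ ∀ a, a < n → ∀ i, i < m → Φ a i < Φ a (i + 1) → v i ∈ T := by
  induction n with
  | zero => exact ⟨S, hS, subset_refl _, by intro a ha; omega⟩
  | succ n ih =>
    obtain ⟨T, hT, hST, hTn⟩ := ih
    refine ⟨_, Reach.step T (Φ n) (h01 n) (hc n) (fun i hi hvi => hpos n i hi (fun h => hvi (hST h)))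
      hT, hST.trans subset_union_left, ?_⟩
    intro a ha i hi hlt
    rcases Nat.lt_or_ge a n with h | h
    · exact mem_union_left _ (hTn a h i hi hlt)
    · have : a = n := by omega
      subst this
      apply mem_union_right
      rw [mem_image]
      exact ⟨i, by rw [mem_filter, mem_range]; exact ⟨hi, hlt⟩, rfl⟩

/-- The nondegeneracy property: an integer vector `u` whose image under the matrix is bounded by
`2` and vanishes on the window `[lo, hi)` is zero. -/
def Nondeg (K : ℕ) (B : ℕ → ℕ → Bool) (lo hi : ℕ) : Prop :=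
  ∀ u : ℕ → ℤ, (∀ a, a < K → |∑ b ∈ range K, mu B a b * u b| ≤ 2) →
    (∀ a, lo ≤ a → a < hi → ∑ b ∈ range K, mu B a b * u b = 0) → ∀ b, b < K → u b = 0

/-- **Descent.** -/
theorem reach_of_walk {K : ℕ} {B : ℕ → ℕ → Bool} (hK : 3 ≤ K) (h00 : B 0 0 = true)
    (m : ℕ) (v : ℕ → ℕ) (lo : ℕ → ℕ) (hlo1 : 1 ≤ lo 0) (hlomono : Monotone lo)
    (hloK : lo (m + 2) ≤ K)
    (hnd : ∀ t, t < m + 2 → Nondeg K B (lo t) (lo (t + 1))) (N : ℕ) :
    ∀ c : ℕ → ℕ, (∀ i, i < m → c i ≤ c (i + 1)) → c m ≤ N →
      (∀ i j, i < m → j < m → v i = v j → ∀ a, a < K →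
        W K B (c (i + 1)) a - W K B (c i) a = W K B (c (j + 1)) a - W K B (c j) a) →
      ∃ S, Reach m v S ∧ ∀ i, i < m → (∃ a, a < K ∧ W K B (c i) a ≠ W K B (c (i + 1)) a) →
        v i ∈ S := by
  have hK2 : 2 ≤ K := by omega
  induction N with
  | zero =>
    intro c hmono hcm _
    refine ⟨∅, Reach.empty, ?_⟩
    intro i hi ⟨a, ha, hne⟩
    exfalso
    apply hne
    have hle : ∀ k, ∀ i, i + k = m → c i ≤ c m := by
      intro k
      induction k with
      | zero => intro i hi; rw [show i = m by omega]
      | succ k ih =>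
        intro i hi
        exact (hmono i (by omega)).trans (ih (i + 1) (by omega))
    have h1 := hle (m - i) i (by omega)
    have h2 := hle (m - (i + 1)) (i + 1) (by omega)
    have h3 : c i = c (i + 1) := by omega
    rw [h3]
  | succ N ih =>
    intro c hmono hcm hcon
    by_cases hcm0 : c m = 0
    · exact ih c hmono (by omega) hcon
    -- choose a window containing no cut
    obtain ⟨t, ht, hgood⟩ : ∃ t, t < m + 2 ∧ ∀ i, i ≤ m →
        (c i % K ≤ lo t ∨ lo (t + 1) ≤ c i % K) := by
      by_contra hcon2
      push Not at hcon2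
      have hch : ∀ t : Fin (m + 2), ∃ i : Fin (m + 1), lo t < c i % K ∧ c i % K < lo (t + 1) := by
        intro t
        obtain ⟨i, hi, h⟩ := hcon2 t t.2
        exact ⟨⟨i, by omega⟩, h⟩
      choose F hF using hch
      obtain ⟨s, t, hst, hFst⟩ := Fintype.exists_ne_map_eq_of_card_lt F (by simp)
      have h1 := hF s
      have h2 := hF t
      rw [hFst] at h1
      rcases lt_trichotomy (s : ℕ) (t : ℕ) with h | h | h
      · have := hlomono (show (s : ℕ) + 1 ≤ t by omega)
        omega
      · exact hst (Fin.ext h)
      · have := hlomono (show (t : ℕ) + 1 ≤ s by omega)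
        omega
    have hlot1 : 1 ≤ lo t := hlo1.trans (hlomono (Nat.zero_le t))
    set c' : ℕ → ℕ := fun i => rnd K (lo t) (c i) with hc'
    have hmono' : ∀ i, i < m → c' i ≤ c' (i + 1) := fun i hi => rnd_mono _ (hmono i hi)
    have hcm' : c' m ≤ N := by
      have := rnd_lt hK hlot1 (Nat.pos_of_ne_zero hcm0)
      show rnd K (lo t) (c m) ≤ N
      omega
    set g : ℕ → ℕ → ℤ := fun i a => err K B (lo t) (c i) a with hg
    have hW : ∀ i a, a < K → W K B (c i) a = ∑ b ∈ range K, mu B a b * W K B (c' i) b + g i a :=
      fun i a ha => W_eq hK2 h00 (lo t) (c i) a ha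
    -- bounds on the errors
    have hglow : ∀ i, i ≤ m → ∀ a, a < lo t → g i a = 0 ∨ g i a = 1 :=
      fun i _ a ha => err_low ha
    have hghigh : ∀ i a, lo t ≤ a → g i a = 0 ∨ g i a = -1 :=
      fun i a ha => err_high ha
    have hgmid : ∀ i, i ≤ m → ∀ a, lo t ≤ a → a < lo (t + 1) → g i a = 0 :=
      fun i hi a ha ha' => err_mid (hgood i hi) ha ha'
    -- difference identity
    have hdiff : ∀ i a, a < K → W K B (c (i + 1)) a - W K B (c i) a =
        ∑ b ∈ range K, mu B a b * (W K B (c' (i + 1)) b - W K B (c' i) b) +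
          (g (i + 1) a - g i a) := by
      intro i a ha
      rw [hW (i + 1) a ha, hW i a ha]
      simp_rw [mul_sub]
      rw [sum_sub_distrib]
      ring
    have hcon' : ∀ i j, i < m → j < m → v i = v j → ∀ a, a < K →
        W K B (c' (i + 1)) a - W K B (c' i) a = W K B (c' (j + 1)) a - W K B (c' j) a := by
      intro i j hi hj hij a ha
      have key := hnd t ht (fun b => (W K B (c' (i + 1)) b - W K B (c' i) b) -
        (W K B (c' (j + 1)) b - W K B (c' j) b))
      have himg : ∀ a, a < K → ∑ b ∈ range K, mu B a b *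
          ((W K B (c' (i + 1)) b - W K B (c' i) b) - (W K B (c' (j + 1)) b - W K B (c' j) b)) =
          (g (j + 1) a - g j a) - (g (i + 1) a - g i a) := by
        intro a ha
        have h1 := hdiff i a ha
        have h2 := hdiff j a ha
        have h3 := hcon i j hi hj hij a ha
        have h4 : ∑ b ∈ range K, mu B a b *
          ((W K B (c' (i + 1)) b - W K B (c' i) b) - (W K B (c' (j + 1)) b - W K B (c' j) b)) =
          ∑ b ∈ range K, mu B a b * (W K B (c' (i + 1)) b - W K B (c' i) b) -
          ∑ b ∈ range K, mu B a b * (W K B (c' (j + 1)) b - W K B (c' j) b) := by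
          rw [← sum_sub_distrib]
          exact sum_congr rfl fun b _ => by ring
        rw [h4]
        linarith
      have h5 := key (by
        intro a ha
        rw [himg a ha]
        rcases Nat.lt_or_ge a (lo t) with hlt | hge
        · have e1 := hglow i hi.le a hlt
          have e2 := hglow (i + 1) hi a hlt
          have e3 := hglow j hj.le a hlt
          have e4 := hglow (j + 1) hj a hlt
          rw [abs_le]
          omega
        · have e1 := hghigh i a hge
          have e2 := hghigh (i + 1) a hge
          have e3 := hghigh j a hge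
          have e4 := hghigh (j + 1) a hge
          rw [abs_le]
          omega) (by
        intro a ha1 ha2
        have haK : a < K := by
          have := hlomono (show t + 1 ≤ m + 2 by omega)
          omega
        rw [himg a haK, hgmid i hi.le a ha1 ha2, hgmid (i + 1) hi a ha1 ha2,
          hgmid j hj.le a ha1 ha2, hgmid (j + 1) hj a ha1 ha2]
        ring) a ha
      linarith
    obtain ⟨S', hS', hS'mem⟩ := ih c' hmono' hcm' hcon'
    -- for variables outside `S'` the increments are the errors, and nonnegative
    have hzero : ∀ i, i < m → v i ∉ S' → ∀ a, a < K →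
        W K B (c (i + 1)) a - W K B (c i) a = g (i + 1) a - g i a := by
      intro i hi hvi a ha
      rw [hdiff i a ha]
      have : ∀ b ∈ range K, mu B a b * (W K B (c' (i + 1)) b - W K B (c' i) b) = 0 := by
        intro b hb
        rw [mem_range] at hb
        have : W K B (c' i) b = W K B (c' (i + 1)) b := by
          by_contra hne
          exact hvi (hS'mem i hi ⟨b, hb, hne⟩)
        rw [this]; ring
      rw [sum_eq_zero this]
      ring
    have hgdiff : ∀ i j, i < m → j < m → v i = v j → ∀ a, a < K →
        g (i + 1) a - g i a = g (j + 1) a - g j a := by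
      intro i j hi hj hij a ha
      have h1 := hdiff i a ha
      have h2 := hdiff j a ha
      have h3 := hcon i j hi hj hij a ha
      have h4 : ∑ b ∈ range K, mu B a b * (W K B (c' (i + 1)) b - W K B (c' i) b) =
          ∑ b ∈ range K, mu B a b * (W K B (c' (j + 1)) b - W K B (c' j) b) := by
        refine sum_congr rfl fun b hb => ?_
        rw [mem_range] at hb
        rw [hcon' i j hi hj hij b hb]
      linarith
    -- the family of walks
    let Φ : ℕ → ℕ → ℤ := fun a i =>
      if a < K ∧ i ≤ m then (if a < lo t then g i a else g i a + 1) else 0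
    have hΦ : ∀ a i, a < K → i < m → Φ a (i + 1) - Φ a i = g (i + 1) a - g i a := by
      intro a i ha hi
      simp only [Φ]
      rw [if_pos (show a < K ∧ i + 1 ≤ m from ⟨ha, hi⟩),
        if_pos (show a < K ∧ i ≤ m from ⟨ha, hi.le⟩)]
      split_ifs <;> ring
    obtain ⟨T, hT, hS'T, hTmem⟩ := reach_family hS' Φ (by
      intro a i
      simp only [Φ]
      by_cases h : a < K ∧ i ≤ m
      · rw [if_pos h]
        by_cases h2 : a < lo t
        · rw [if_pos h2]
          exact hglow i h.2 a h2
        · rw [if_neg h2]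
          have := hghigh i a (by omega)
          omega
      · rw [if_neg h]
        left; rfl) (by
      intro a i j hi hj hij
      by_cases ha : a < K
      · rw [hΦ a i ha hi, hΦ a j ha hj]
        exact hgdiff i j hi hj hij a ha
      · simp only [Φ]
        simp [ha]) (by
      intro a i hi hvi
      by_cases ha : a < K
      · have h1 := hΦ a i ha hi
        have h2 := hzero i hi hvi a ha
        have h3 := W_mono (K := K) (B := B) a (hmono i hi)
        linarith
      · simp only [Φ]
        simp [ha]) K
    refine ⟨T, hT, ?_⟩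
    rintro i hi ⟨a, ha, hne⟩
    by_cases hvi : v i ∈ S'
    · exact hS'T hvi
    · apply hTmem a ha i hi
      have h1 := hΦ a i ha hi
      have h2 := hzero i hi hvi a ha
      have h3 := W_mono (K := K) (B := B) a (hmono i hi)
      have h4 : W K B (c i) a < W K B (c (i + 1)) a := lt_of_le_of_ne h3 hne
      linarith

end Pool.Agent.Lib.Helper9.Zimin
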