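import Pool.Agent.Lib.Helper9.ZiminDescent

/-!
# The matrix

Letters are the nonempty subsets of an `e`-element set, ordered by size, and the entry at `(s, b)`
is the parity of `|s ∩ b|`. The windows consist of three consecutive sizes.
-/

set_option autoImplicit false

namespace Pool.Agent.Lib.Helper9.Zimin

open Finset

section parity

variable {e : ℕ} {ι : Type*} [Fintype ι]

/-- Parity of an intersection, as an integer. -/
def par {e : ℕ} (s b : Finset (Fin e)) : ℤ := (((s ∩ b).card % 2 : ℕ) : ℤ)

/-- The image vector, indexed by all subsets. -/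
def G (g : ι → Finset (Fin e)) (u : ι → ℤ) (s : Finset (Fin e)) : ℤ := ∑ b, par s (g b) * u b

lemma card_insert_inter {s b : Finset (Fin e)} {i : Fin e} (hi : i ∉ s) :
    (insert i s ∩ b).card = (s ∩ b).card + (if i ∈ b then 1 else 0) := by
  by_cases h : i ∈ b
  · rw [insert_inter_of_mem h, card_insert_of_notMem (fun h' => hi (mem_inter.mp h').1), if_pos h]
  · rw [insert_inter_of_notMem h, if_neg h, add_zero]

/-- Third differences of the parity are divisible by four. -/
lemma third_difference_par {s : Finset (Fin e)} (b : Finset (Fin e)) {i j l : Fin e}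
    (hi : i ∉ s) (hj : j ∉ s) (hl : l ∉ s) (hij : i ≠ j) (hil : i ≠ l) (hjl : j ≠ l) :
    (4 : ℤ) ∣ par s b - par (insert i s) b - par (insert j s) b - par (insert l s) b +
      par (insert i (insert j s)) b + par (insert i (insert l s)) b +
      par (insert j (insert l s)) b - par (insert i (insert j (insert l s))) b := by
  have hj' : i ∉ insert j s := by simp [hij, hi]
  have hl' : i ∉ insert l s := by simp [hil, hi]
  have hl'' : j ∉ insert l s := by simp [hjl, hj]
  have hjl' : i ∉ insert j (insert l s) := by simp [hij, hil, hi]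
  unfold par
  rw [card_insert_inter hi, card_insert_inter hj, card_insert_inter hl, card_insert_inter hj',
    card_insert_inter hl', card_insert_inter hl'', card_insert_inter hjl', card_insert_inter hj,
    card_insert_inter hl, card_insert_inter hl'', card_insert_inter hl]
  generalize (s ∩ b).card = n
  by_cases h1 : i ∈ b <;> by_cases h2 : j ∈ b <;> by_cases h3 : l ∈ b <;>
    simp only [h1, h2, h3, if_true, if_false] <;> omega

lemma third_difference (g : ι → Finset (Fin e)) (u : ι → ℤ) {s : Finset (Fin e)} {i j l : Fin e}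
    (hi : i ∉ s) (hj : j ∉ s) (hl : l ∉ s) (hij : i ≠ j) (hil : i ≠ l) (hjl : j ≠ l) :
    (4 : ℤ) ∣ G g u s - G g u (insert i s) - G g u (insert j s) - G g u (insert l s) +
      G g u (insert i (insert j s)) + G g u (insert i (insert l s)) +
      G g u (insert j (insert l s)) - G g u (insert i (insert j (insert l s))) := by
  have h : G g u s - G g u (insert i s) - G g u (insert j s) - G g u (insert l s) +
      G g u (insert i (insert j s)) + G g u (insert i (insert l s)) +
      G g u (insert j (insert l s)) - G g u (insert i (insert j (insert l s))) =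
      ∑ b, (par s (g b) - par (insert i s) (g b) - par (insert j s) (g b) - par (insert l s) (g b) +
      par (insert i (insert j s)) (g b) + par (insert i (insert l s)) (g b) +
      par (insert j (insert l s)) (g b) - par (insert i (insert j (insert l s))) (g b)) * u b := by
    unfold G
    simp only [← sum_sub_distrib, ← sum_add_distrib]
    exact sum_congr rfl fun b _ => by ring
  rw [h]
  exact dvd_sum fun b _ => Dvd.dvd.mul_right (third_difference_par (g b) hi hj hl hij hil hjl) _

/-- If the image vector vanishes on three consecutive sizes, it is divisible by four. -/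
lemma four_dvd (g : ι → Finset (Fin e)) (u : ι → ℤ) (w : ℕ) (hw : w + 2 ≤ e)
    (h0 : ∀ s : Finset (Fin e), w ≤ s.card → s.card ≤ w + 2 → G g u s = 0)
    (s : Finset (Fin e)) : (4 : ℤ) ∣ G g u s := by
  -- sizes at least `w`
  have hup : ∀ n, ∀ s : Finset (Fin e), s.card = n → w ≤ n → (4 : ℤ) ∣ G g u s := by
    intro n
    induction n using Nat.strong_induction_on with
    | _ n ih =>
      intro s hs hn
      by_cases hn2 : n ≤ w + 2
      · rw [h0 s (by omega) (by omega)]
        exact dvd_zero _
      · have h3 : 2 < s.card := by omega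
        obtain ⟨i, hi, j, hj, l, hl, hij, hil, hjl⟩ := Finset.two_lt_card.mp h3
        set s0 := ((s.erase i).erase j).erase l with hs0
        have hj1 : j ∈ s.erase i := by simp [hij.symm, hj]
        have hl1 : l ∈ (s.erase i).erase j := by simp [hjl.symm, hil.symm, hl]
        have hc0 : s0.card = n - 3 := by
          rw [hs0, card_erase_of_mem hl1, card_erase_of_mem hj1, card_erase_of_mem hi]
          omega
        have hi0 : i ∉ s0 := by simp [hs0]
        have hj0 : j ∉ s0 := by simp [hs0]
        have hl0 : l ∉ s0 := by simp [hs0]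
        have hfull : insert i (insert j (insert l s0)) = s := by
          rw [hs0, insert_erase hl1, insert_erase hj1, insert_erase hi]
        have hd := third_difference g u hi0 hj0 hl0 hij hil hjl
        rw [hfull] at hd
        have hjl0 : j ∉ insert l s0 := by simp [hjl, hj0]
        have hil0 : i ∉ insert l s0 := by simp [hil, hi0]
        have hij0 : i ∉ insert j s0 := by simp [hij, hi0]
        have d0 := ih (n - 3) (by omega) s0 hc0 (by omega)
        have d1 := ih (n - 2) (by omega) (insert i s0)
          (by rw [card_insert_of_notMem hi0, hc0]; omega) (by omega)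
        have d2 := ih (n - 2) (by omega) (insert j s0)
          (by rw [card_insert_of_notMem hj0, hc0]; omega) (by omega)
        have d3 := ih (n - 2) (by omega) (insert l s0)
          (by rw [card_insert_of_notMem hl0, hc0]; omega) (by omega)
        have d4 := ih (n - 1) (by omega) (insert i (insert j s0))
          (by rw [card_insert_of_notMem hij0, card_insert_of_notMem hj0, hc0]; omega) (by omega)
        have d5 := ih (n - 1) (by omega) (insert i (insert l s0))
          (by rw [card_insert_of_notMem hil0, card_insert_of_notMem hl0, hc0]; omega) (by omega)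
        have d6 := ih (n - 1) (by omega) (insert j (insert l s0))
          (by rw [card_insert_of_notMem hjl0, card_insert_of_notMem hl0, hc0]; omega) (by omega)
        omega
  -- sizes below `w`
  have hdown : ∀ k, ∀ s : Finset (Fin e), s.card + k = w → (4 : ℤ) ∣ G g u s := by
    intro k
    induction k using Nat.strong_induction_on with
    | _ k ih =>
      intro s hs
      rcases Nat.eq_zero_or_pos k with hk | hk
      · exact hup _ s rfl (by omega)
      · have hgen : ∀ s' : Finset (Fin e), s.card < s'.card → (4 : ℤ) ∣ G g u s' := by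
          intro s' hs'
          rcases Nat.lt_or_ge s'.card w with h | h
          · exact ih (w - s'.card) (by omega) s' (by omega)
          · exact hup _ s' rfl h
        have hcompl : 2 < (sᶜ).card := by
          rw [card_compl, Fintype.card_fin]
          omega
        obtain ⟨i, hi, j, hj, l, hl, hij, hil, hjl⟩ := Finset.two_lt_card.mp hcompl
        rw [mem_compl] at hi hj hl
        have hd := third_difference g u hi hj hl hij hil hjl
        have hjl0 : j ∉ insert l s := by simp [hjl, hj]
        have hil0 : i ∉ insert l s := by simp [hil, hi]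
        have hij0 : i ∉ insert j s := by simp [hij, hi]
        have hijl0 : i ∉ insert j (insert l s) := by simp [hij, hil, hi]
        have d1 := hgen (insert i s) (by rw [card_insert_of_notMem hi]; omega)
        have d2 := hgen (insert j s) (by rw [card_insert_of_notMem hj]; omega)
        have d3 := hgen (insert l s) (by rw [card_insert_of_notMem hl]; omega)
        have d4 := hgen (insert i (insert j s))
          (by rw [card_insert_of_notMem hij0, card_insert_of_notMem hj]; omega)
        have d5 := hgen (insert i (insert l s))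
          (by rw [card_insert_of_notMem hil0, card_insert_of_notMem hl]; omega)
        have d6 := hgen (insert j (insert l s))
          (by rw [card_insert_of_notMem hjl0, card_insert_of_notMem hl]; omega)
        have d7 := hgen (insert i (insert j (insert l s)))
          (by rw [card_insert_of_notMem hijl0, card_insert_of_notMem hjl0,
                card_insert_of_notMem hl]; omega)
        omega
  rcases Nat.lt_or_ge s.card w with h | h
  · exact hdown (w - s.card) s (by omega)
  · exact hup _ s rfl h

/-- The sign attached to membership. -/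
def sgn {e : ℕ} (b : Finset (Fin e)) (i : Fin e) : ℤ := if i ∈ b then -1 else 1

lemma prod_sgn (s b : Finset (Fin e)) : ∏ i ∈ s, sgn b i = 1 - 2 * par s b := by
  unfold sgn par
  rw [prod_ite]
  simp only [prod_const, one_pow, mul_one]
  rw [show s.filter (fun i => i ∈ b) = s ∩ b from by ext x; simp]
  generalize (s ∩ b).card = n
  rcases Nat.even_or_odd n with h | h
  · rw [h.neg_one_pow, Nat.even_iff.mp h]; norm_num
  · rw [h.neg_one_pow, Nat.odd_iff.mp h]; norm_num

lemma sum_prod_sgn (b : Finset (Fin e)) (hb : b.Nonempty) :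
    ∑ s : Finset (Fin e), ∏ i ∈ s, sgn b i = 0 := by
  have h := Finset.prod_add_one (f := fun i => sgn b i) (univ : Finset (Fin e))
  rw [powerset_univ] at h
  rw [← h]
  obtain ⟨i, hi⟩ := hb
  apply prod_eq_zero (mem_univ i)
  unfold sgn
  simp [hi]

lemma sum_prod_sgn_mul (b c : Finset (Fin e)) :
    ∑ s : Finset (Fin e), (∏ i ∈ s, sgn b i) * (∏ i ∈ s, sgn c i) =
      if b = c then 2 ^ e else 0 := by
  have h := Finset.prod_add_one (f := fun i => sgn b i * sgn c i) (univ : Finset (Fin e))
  rw [powerset_univ] at h
  simp_rw [← prod_mul_distrib]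
  rw [← h]
  split_ifs with hbc
  · subst hbc
    have : ∀ i : Fin e, sgn b i * sgn b i + 1 = 2 := by
      intro i; unfold sgn; split_ifs <;> norm_num
    simp_rw [this]
    simp
  · obtain ⟨i, hi⟩ : ∃ i, ¬ (i ∈ b ↔ i ∈ c) := by
      by_contra hcon
      push Not at hcon
      exact hbc (Finset.ext hcon)
    apply prod_eq_zero (mem_univ i)
    unfold sgn
    by_cases h1 : i ∈ b <;> by_cases h2 : i ∈ c
    · exact absurd ⟨fun _ => h2, fun _ => h1⟩ hi
    · simp [h1, h2]
    · simp [h1, h2]
    · exact absurd ⟨fun h => absurd h h1, fun h => absurd h h2⟩ hi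

/-- Injectivity of the matrix over the rationals. -/
lemma eq_zero_of_G (g : ι → Finset (Fin e)) (hg : Function.Injective g)
    (hne : ∀ b, (g b).Nonempty) (u : ι → ℤ) (h0 : ∀ s, G g u s = 0) (b : ι) : u b = 0 := by
  classical
  -- evaluate the double sum in two ways
  have h1 : ∀ s : Finset (Fin e), ∑ c, (∏ i ∈ s, sgn (g c) i) * u c = ∑ c, u c := by
    intro s
    have : ∀ c, (∏ i ∈ s, sgn (g c) i) * u c = u c - 2 * (par s (g c) * u c) := by
      intro c; rw [prod_sgn]; ring
    simp_rw [this]
    rw [sum_sub_distrib, ← mul_sum]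
    have := h0 s
    unfold G at this
    rw [this]; ring
  have h2 : ∑ s : Finset (Fin e), (∏ i ∈ s, sgn (g b) i) *
      ∑ c, (∏ i ∈ s, sgn (g c) i) * u c = 0 := by
    simp_rw [h1]
    rw [← sum_mul, sum_prod_sgn _ (hne b), zero_mul]
  have h3 : ∑ s : Finset (Fin e), (∏ i ∈ s, sgn (g b) i) *
      ∑ c, (∏ i ∈ s, sgn (g c) i) * u c = 2 ^ e * u b := by
    simp_rw [mul_sum]
    rw [sum_comm]
    have : ∀ c, ∑ s : Finset (Fin e), (∏ i ∈ s, sgn (g b) i) * ((∏ i ∈ s, sgn (g c) i) * u c) =
        (if b = c then 2 ^ e else 0) * u c := by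
      intro c
      simp_rw [← mul_assoc]
      rw [← sum_mul, sum_prod_sgn_mul]
      congr 1
      by_cases hbc : b = c
      · subst hbc; simp
      · rw [if_neg hbc, if_neg (fun h => hbc (hg h))]
    simp_rw [this]
    simp
  rw [h2] at h3
  have : (2 : ℤ) ^ e ≠ 0 := by positivity
  rcases mul_eq_zero.mp h3.symm with h | h
  · exact absurd h this
  · exact h

end parity

/-- Existence of the matrix with `T` windows. -/
theorem exists_matrix (T : ℕ) : ∃ (K : ℕ) (B : ℕ → ℕ → Bool) (lo : ℕ → ℕ),
    3 ≤ K ∧ B 0 0 = true ∧ 1 ≤ lo 0 ∧ Monotone lo ∧ lo T ≤ K ∧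
    (∀ t, t < T → Nondeg K B (lo t) (lo (t + 1))) ∧
    (∀ b, b < K → ∃ a, 1 ≤ a ∧ a < K ∧ B a b = true) := by
  classical
  set e : ℕ := 3 * T + 2 with he
  let NE := {s : Finset (Fin e) // s.Nonempty}
  set K : ℕ := Fintype.card NE with hK
  let f0 : NE ≃ Fin K := Fintype.equivFin NE
  let wt : Fin K → ℕ := fun a => (f0.symm a).1.card
  let σ : Equiv.Perm (Fin K) := Tuple.sort wt
  have hσ : Monotone (wt ∘ σ) := Tuple.monotone_sort wt
  let g : Fin K ≃ NE := σ.trans f0.symm
  have hgmono : ∀ a b : Fin K, a ≤ b → (g a).1.card ≤ (g b).1.card := fun a b hab => hσ hab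
  have hcardNE : K = 2 ^ e - 1 := by
    rw [hK]
    have h1 : Fintype.card NE = Fintype.card {s : Finset (Fin e) // s ≠ ∅} := by
      apply Fintype.card_congr
      exact Equiv.subtypeEquivRight (fun s => Finset.nonempty_iff_ne_empty)
    rw [h1, Fintype.card_subtype_compl]
    simp
  have hK3 : 3 ≤ K := by
    rw [hcardNE]
    have : 2 ^ 2 ≤ 2 ^ e := Nat.pow_le_pow_right (by norm_num) (by omega)
    omega
  have hKpos : 0 < K := by omega
  -- the first letter is a singleton
  have h0card : (g ⟨0, hKpos⟩).1.card = 1 := by
    have hpos : 0 < (g ⟨0, hKpos⟩).1.card := (g ⟨0, hKpos⟩).2.card_pos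
    let s1 : NE := ⟨{⟨0, by omega⟩}, by simp⟩
    have h1 := hgmono ⟨0, hKpos⟩ (g.symm s1) (by
      rw [Fin.le_def]; exact Nat.zero_le _)
    rw [Equiv.apply_symm_apply] at h1
    have h2 : s1.1.card = 1 := by simp [s1]
    omega
  let B : ℕ → ℕ → Bool := fun a b =>
    if h : a < K ∧ b < K then
      decide (((g ⟨a, h.1⟩).1 ∩ (g ⟨b, h.2⟩).1).card % 2 = 1) else false
  have hB : ∀ (a b : ℕ) (ha : a < K) (hb : b < K),
      B a b = decide (((g ⟨a, ha⟩).1 ∩ (g ⟨b, hb⟩).1).card % 2 = 1) := by
    intro a b ha hb
    simp only [B]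
    rw [dif_pos ⟨ha, hb⟩]
  have hmu : ∀ (a b : ℕ) (ha : a < K) (hb : b < K),
      mu B a b = par (g ⟨a, ha⟩).1 (g ⟨b, hb⟩).1 := by
    intro a b ha hb
    unfold mu par
    rw [hB a b ha hb]
    rcases Nat.mod_two_eq_zero_or_one ((g ⟨a, ha⟩).1 ∩ (g ⟨b, hb⟩).1).card with h | h <;> simp [h]
  let lo : ℕ → ℕ := fun t => (univ.filter (fun a : Fin K => (g a).1.card < 3 * (t + 1))).card
  have hlomono : Monotone lo := by
    intro s t hst
    apply card_le_card
    intro a ha
    rw [mem_filter] at ha ⊢
    exact ⟨mem_univ _, by omega⟩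
  -- initial segments
  have hinit : ∀ (t : ℕ) (a : Fin K), (a : ℕ) < lo t ↔ (g a).1.card < 3 * (t + 1) := by
    intro t a
    have hA : ∀ x y : Fin K, x ≤ y → (g y).1.card < 3 * (t + 1) → (g x).1.card < 3 * (t + 1) :=
      fun x y hxy hy => lt_of_le_of_lt (hgmono x y hxy) hy
    constructor
    · intro h
      by_contra hcon
      have hsub : univ.filter (fun x : Fin K => (g x).1.card < 3 * (t + 1)) ⊆ Finset.Iio a := by
        intro x hx
        rw [mem_filter] at hx
        rw [Finset.mem_Iio]
        by_contra hle
        exact hcon (hA a x (not_lt.mp hle) hx.2)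
      have := card_le_card hsub
      rw [Fin.card_Iio] at this
      have h' : lo t ≤ (a : ℕ) := this
      omega
    · intro h
      have hsub : Finset.Iic a ⊆ univ.filter (fun x : Fin K => (g x).1.card < 3 * (t + 1)) := by
        intro x hx
        rw [Finset.mem_Iic] at hx
        rw [mem_filter]
        exact ⟨mem_univ _, hA x a hx h⟩
      have := card_le_card hsub
      rw [Fin.card_Iic] at this
      have h' : (a : ℕ) + 1 ≤ lo t := this
      omega
  refine ⟨K, B, lo, hK3, ?_, ?_, hlomono, ?_, ?_, ?_⟩
  · rw [hB 0 0 hKpos hKpos, inter_self, h0card]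
    rfl
  · have := (hinit 0 ⟨0, hKpos⟩).mpr (by rw [h0card]; norm_num)
    exact this
  · have : lo T ≤ (univ : Finset (Fin K)).card := card_le_card (filter_subset _ _)
    simpa using this
  · intro t ht u hbound hvanish b hb
    let g' : Fin K → Finset (Fin e) := fun a => (g a).1
    let u' : Fin K → ℤ := fun b => u b
    have hG : ∀ (a : ℕ) (ha : a < K), G g' u' (g ⟨a, ha⟩).1 = ∑ b ∈ range K, mu B a b * u b := by
      intro a ha
      rw [Finset.sum_range]
      unfold G
      refine sum_congr rfl fun b _ => ?_
      rw [hmu a b ha b.2]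
    have hG0 : G g' u' ∅ = 0 := by
      unfold G par; simp
    have hsurj : ∀ s : Finset (Fin e), s.Nonempty → ∃ a : Fin K, (g a).1 = s := by
      intro s hs
      exact ⟨g.symm ⟨s, hs⟩, by rw [Equiv.apply_symm_apply]⟩
    have hdvd := four_dvd g' u' (3 * (t + 1)) (by omega) (by
      intro s hs1 hs2
      have hsne : s.Nonempty := by
        rw [← Finset.card_pos]; omega
      obtain ⟨a, rfl⟩ := hsurj s hsne
      rw [hG a a.2]
      apply hvanish
      · by_contra hcon
        have := (hinit t a).mp (by omega)
        omega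
      · exact (hinit (t + 1) a).mpr (by omega))
    have hzero : ∀ s, G g' u' s = 0 := by
      intro s
      rcases s.eq_empty_or_nonempty with rfl | hs
      · exact hG0
      · obtain ⟨a, rfl⟩ := hsurj s hs
        have h1 := hbound a a.2
        rw [← hG a a.2, abs_le] at h1
        have h2 := hdvd (g a).1
        have h3 : G g' u' (g ⟨(a : ℕ), a.2⟩).1 = G g' u' (g a).1 := rfl
        rw [h3] at h1
        omega
    have hinj : Function.Injective g' := by
      intro x y hxy
      exact g.injective (Subtype.ext hxy)
    exact eq_zero_of_G g' hinj (fun b => (g b).2) u' hzero ⟨b, hb⟩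
  · intro b hb
    -- the first letter is `{i0}`
    obtain ⟨i0, hi0⟩ := Finset.card_eq_one.mp h0card
    have hfind : ∀ s : Finset (Fin e), s.Nonempty → s ≠ {i0} →
        (s ∩ (g ⟨b, hb⟩).1).card % 2 = 1 → ∃ a, 1 ≤ a ∧ a < K ∧ B a b = true := by
      intro s hs hne hodd
      refine ⟨(g.symm ⟨s, hs⟩ : Fin K), ?_, (g.symm ⟨s, hs⟩).2, ?_⟩
      · by_contra hcon
        have h0 : g.symm ⟨s, hs⟩ = ⟨0, hKpos⟩ := Fin.ext (by
          show ((g.symm ⟨s, hs⟩ : Fin K) : ℕ) = 0
          omega)
        have h1 : (⟨s, hs⟩ : NE) = g ⟨0, hKpos⟩ := by rw [← h0, Equiv.apply_symm_apply]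
        have h2 : s = (g ⟨0, hKpos⟩).1 := congrArg Subtype.val h1
        exact hne (h2.trans hi0)
      · rw [hB _ b (g.symm ⟨s, hs⟩).2 hb]
        have : g ⟨((g.symm ⟨s, hs⟩ : Fin K) : ℕ), (g.symm ⟨s, hs⟩).2⟩ = ⟨s, hs⟩ := by
          rw [Fin.eta, Equiv.apply_symm_apply]
        rw [this, hodd]
        rfl
    obtain ⟨i, hi⟩ := (g ⟨b, hb⟩).2
    by_cases hii : i = i0
    · subst hii
      obtain ⟨j, hj⟩ : ∃ j : Fin e, j ≠ i := by
        by_cases h : i = ⟨0, by omega⟩
        · refine ⟨⟨1, by omega⟩, ?_⟩
          rw [h]
          intro h'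
          have := Fin.val_eq_of_eq h'
          simp at this
        · exact ⟨⟨0, by omega⟩, fun h' => h h'.symm⟩
      by_cases hjb : j ∈ (g ⟨b, hb⟩).1
      · apply hfind {j} (by simp) (by
          intro h
          exact hj (Finset.singleton_injective h))
        rw [singleton_inter_of_mem hjb]
        simp
      · apply hfind {i, j} (by simp) (by
          intro h
          have : j ∈ ({i} : Finset (Fin e)) := by rw [← h]; simp
          exact hj (by simpa using this))
        rw [insert_inter_of_mem hi, singleton_inter_of_notMem hjb]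
        simp
    · apply hfind {i} (by simp) (by
        intro h
        exact hii (Finset.singleton_injective h))
      rw [singleton_inter_of_mem hi]
      simp

end Pool.Agent.Lib.Helper9.Zimin
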