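import Mathlib

/-!
# Abelian encounters in Zimin words via alternating functions

For a pattern `v 0, ..., v (m-1)` we define the family of *reachable* sets of variables, and prove
that if the set of all variables is reachable then the Zimin word `Z_n` (`n` the number of variables)
encounters the pattern in the abelian sense.
-/

set_option autoImplicit false

namespace Pool.Agent.Lib.Helper9.Zimin

open Finset

/-- Reachable sets of variables of the pattern `v 0, ..., v (m-1)`. A step adds all variables on
which a `0/1` walk, whose increments depend on the variable only and are nonnegative on the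
variables not yet reached, increases. -/
inductive Reach (m : ℕ) (v : ℕ → ℕ) : Finset ℕ → Prop
  | empty : Reach m v ∅
  | step (S : Finset ℕ) (φ : ℕ → ℤ) (h01 : ∀ i, φ i = 0 ∨ φ i = 1)
      (hc : ∀ i j, i < m → j < m → v i = v j → φ (i + 1) - φ i = φ (j + 1) - φ j)
      (hpos : ∀ i, i < m → v i ∉ S → φ i ≤ φ (i + 1)) (hS : Reach m v S) :
      Reach m v (S ∪ ((range m).filter (fun i => φ i < φ (i + 1))).image v)

/-- The number of occurrences of the letter `j + 1` among the first `C` letters of the infinite
Zimin word (the ruler sequence). -/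
def ruler (C j : ℕ) : ℕ := (C + 2 ^ j) / 2 ^ (j + 1)

lemma ruler_zero (C f : ℕ) (hf : f ≤ 1) : ruler (2 * C + f) 0 = C + f := by
  unfold ruler
  norm_num
  omega

lemma ruler_succ (C f j : ℕ) (hf : f ≤ 1) : ruler (2 * C + f) (j + 1) = ruler C j := by
  unfold ruler
  have h1 : 2 ^ (j + 1 + 1) = 2 * 2 ^ (j + 1) := by ring
  have h2 : 2 * C + f + 2 ^ (j + 1) = f + 2 * (C + 2 ^ j) := by ring
  rw [h1, h2, ← Nat.div_div_eq_div_mul]
  congr 1
  omega

/-- Cut positions in the Zimin word `Z_k` realising the pattern on the variables of `S` (the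
variables outside `S` being erased). -/
def Good (m : ℕ) (v : ℕ → ℕ) (k : ℕ) (S : Finset ℕ) : Prop :=
  ∃ C : ℕ → ℕ, (∀ i, C i < 2 ^ k) ∧
    (∀ i, i < m → v i ∈ S → C i < C (i + 1)) ∧
    (∀ i, i < m → v i ∉ S → C i = C (i + 1)) ∧
    (∀ i j, i < m → j < m → v i = v j →
      (C (i + 1) + C j = C (j + 1) + C i ∧
        ∀ l, ruler (C (i + 1)) l + ruler (C j) l = ruler (C (j + 1)) l + ruler (C i) l))

lemma good_of_reach {m : ℕ} {v : ℕ → ℕ} {S : Finset ℕ} (h : Reach m v S) :
    ∃ k, k ≤ #S ∧ Good m v k S := by
  induction h with
  | empty =>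
    refine ⟨0, by simp, fun _ => 0, ?_, ?_, ?_, ?_⟩
    · intro i; simp
    · intro i _ h; simp at h
    · intro i _ _; rfl
    · intro i j _ _ _; simp
  | step S φ h01 hc hpos hS ih =>
    obtain ⟨k, hk, C, hC1, hC2, hC3, hC4⟩ := ih
    set S' := S ∪ ((range m).filter (fun i => φ i < φ (i + 1))).image v with hS'
    by_cases hSS : S' = S
    · rw [hSS]
      exact ⟨k, hk, C, hC1, hC2, hC3, hC4⟩
    · have hcard : #S + 1 ≤ #S' := by
        apply card_lt_card
        rw [Finset.ssubset_iff_subset_ne]
        exact ⟨subset_union_left, fun h => hSS h.symm⟩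
      refine ⟨k + 1, by omega, ?_⟩
      -- the new bit
      obtain ⟨f, hf⟩ : ∃ f : ℕ → ℕ, ∀ i, (f i : ℤ) = φ i ∧ f i ≤ 1 := by
        refine ⟨fun i => (φ i).toNat, fun i => ?_⟩
        rcases h01 i with h | h <;> simp [h]
      have hf1 : ∀ i, f i ≤ 1 := fun i => (hf i).2
      have hfφ : ∀ i, (f i : ℤ) = φ i := fun i => (hf i).1
      have hinc : ∀ i, i < m → v i ∉ S → f i ≤ f (i + 1) := by
        intro i hi hvi
        have := hpos i hi hvi
        rw [← hfφ, ← hfφ] at this
        exact_mod_cast this
      have hcon : ∀ i j, i < m → j < m → v i = v j → f (i + 1) + f j = f (j + 1) + f i := by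
        intro i j hi hj hij
        have := hc i j hi hj hij
        rw [← hfφ, ← hfφ, ← hfφ, ← hfφ] at this
        omega
      refine ⟨fun i => 2 * C i + f i, ?_, ?_, ?_, ?_⟩
      · intro i
        have h1 := hC1 i
        have h2 := hf1 i
        show 2 * C i + f i < 2 ^ (k + 1)
        rw [pow_succ]
        omega
      · intro i hi hvi
        have h1 := hf1 i
        have h2 := hf1 (i + 1)
        by_cases hvS : v i ∈ S
        · have := hC2 i hi hvS
          show 2 * C i + f i < 2 * C (i + 1) + f (i + 1)
          omega
        · have h3 := hC3 i hi hvS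
          have h4 := hinc i hi hvS
          have h5 : f i ≠ f (i + 1) := by
            rw [hS', mem_union, mem_image] at hvi
            rcases hvi with hvi | ⟨j, hj, hji⟩
            · exact absurd hvi hvS
            · rw [mem_filter, mem_range] at hj
              have h6 := hcon i j hi hj.1 hji.symm
              have h7 : f j < f (j + 1) := by
                have := hj.2
                rw [← hfφ, ← hfφ] at this
                exact_mod_cast this
              omega
          show 2 * C i + f i < 2 * C (i + 1) + f (i + 1)
          omega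
      · intro i hi hvi
        have hvS : v i ∉ S := fun h => hvi (by rw [hS']; exact mem_union_left _ h)
        have h3 := hC3 i hi hvS
        have h4 := hinc i hi hvS
        have h5 : ¬ (f i < f (i + 1)) := by
          intro hlt
          apply hvi
          rw [hS']
          apply mem_union_right
          rw [mem_image]
          refine ⟨i, ?_, rfl⟩
          rw [mem_filter, mem_range]
          refine ⟨hi, ?_⟩
          rw [← hfφ, ← hfφ]
          exact_mod_cast hlt
        show 2 * C i + f i = 2 * C (i + 1) + f (i + 1)
        omega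
      · intro i j hi hj hij
        obtain ⟨h1, h2⟩ := hC4 i j hi hj hij
        have h3 := hcon i j hi hj hij
        have h4 : 2 * C (i + 1) + f (i + 1) + (2 * C j + f j) =
            2 * C (j + 1) + f (j + 1) + (2 * C i + f i) := by omega
        refine ⟨h4, ?_⟩
        intro l
        show ruler (2 * C (i + 1) + f (i + 1)) l + ruler (2 * C j + f j) l =
          ruler (2 * C (j + 1) + f (j + 1)) l + ruler (2 * C i + f i) l
        cases l with
        | zero =>
          rw [ruler_zero _ _ (hf1 _), ruler_zero _ _ (hf1 _), ruler_zero _ _ (hf1 _),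
            ruler_zero _ _ (hf1 _)]
          omega
        | succ l =>
          rw [ruler_succ _ _ _ (hf1 _), ruler_succ _ _ _ (hf1 _), ruler_succ _ _ _ (hf1 _),
            ruler_succ _ _ _ (hf1 _)]
          exact h2 l

/-- The Zimin words. -/
def Z (n : ℕ) : List ℕ :=
  Nat.rec (motive := fun _ => List ℕ) [] (fun j z => z ++ [j + 1] ++ z) n

lemma Z_zero : Z 0 = [] := rfl

lemma Z_succ (n : ℕ) : Z (n + 1) = Z n ++ [n + 1] ++ Z n := rfl

lemma Z_length (n : ℕ) : (Z n).length = 2 ^ n - 1 := by
  induction n with
  | zero => simp [Z_zero]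
  | succ n ih =>
    rw [Z_succ]
    simp only [List.length_append, List.length_singleton, ih]
    have : 1 ≤ 2 ^ n := Nat.one_le_two_pow
    rw [pow_succ]
    omega

lemma mem_Z {n a : ℕ} (h : a ∈ Z n) : 1 ≤ a ∧ a ≤ n := by
  induction n with
  | zero => simp [Z_zero] at h
  | succ n ih =>
    rw [Z_succ] at h
    simp only [List.mem_append, List.mem_singleton] at h
    rcases h with (h | h) | h
    · have := ih h; omega
    · omega
    · have := ih h; omega

lemma Z_prefix {k n : ℕ} (h : k ≤ n) : Z k <+: Z n := by
  induction n with
  | zero =>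
    have : k = 0 := by omega
    subst this
    exact List.prefix_refl _
  | succ n ih =>
    rcases Nat.lt_or_ge k (n + 1) with hk | hk
    · refine (ih (by omega)).trans ?_
      rw [Z_succ, List.append_assoc]
      exact List.prefix_append _ _
    · have : k = n + 1 := by omega
      subst this
      exact List.prefix_refl _

lemma ruler_of_lt {C j : ℕ} (h : C < 2 ^ j) : ruler C j = 0 := by
  unfold ruler
  apply Nat.div_eq_of_lt
  rw [pow_succ]
  omega

lemma count_take_Z (n : ℕ) : ∀ C, C < 2 ^ n → ∀ j,
    ((Z n).take C).count (j + 1) = ruler C j := by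
  induction n with
  | zero =>
    intro C hC j
    have : C = 0 := by simpa using hC
    subst this
    rw [ruler_of_lt (by positivity)]
    simp
  | succ n ih =>
    intro C hC j
    have hlen := Z_length n
    have hpos : 1 ≤ 2 ^ n := Nat.one_le_two_pow
    rw [Z_succ, List.append_assoc]
    by_cases hCn : C < 2 ^ n
    · rw [List.take_append_of_le_length (by omega)]
      exact ih C hCn j
    · push Not at hCn
      have hC' : C - 2 ^ n < 2 ^ n := by rw [pow_succ] at hC; omega
      obtain ⟨C', rfl⟩ : ∃ C', C = 2 ^ n + C' := ⟨C - 2 ^ n, by omega⟩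
      have hCC : 2 ^ n + C' - 2 ^ n = C' := by omega
      rw [hCC] at hC'
      rw [List.take_append, List.take_of_length_le (by omega)]
      have h1 : 2 ^ n + C' - (Z n).length = C' + 1 := by omega
      rw [h1, List.singleton_append, List.take_succ_cons, List.count_append, List.count_cons]
      rw [ih C' hC' j]
      have hfull : (Z n).count (j + 1) = ruler (2 ^ n - 1) j := by
        rw [← ih (2 ^ n - 1) (by omega) j, List.take_of_length_le (by omega)]
      rw [hfull]
      rcases lt_trichotomy j n with hj | hj | hj
      · -- `j < n`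
        have hne : (n + 1 == j + 1) = false := by
          simp; omega
        rw [hne]
        obtain ⟨d, rfl⟩ : ∃ d, n = j + 1 + d := ⟨n - (j + 1), by omega⟩
        unfold ruler
        have hp : 0 < 2 ^ (j + 1) := by positivity
        have e1 : (2 ^ (j + 1 + d) - 1 + 2 ^ j) / 2 ^ (j + 1) = 2 ^ d := by
          have : 2 ^ (j + 1 + d) - 1 + 2 ^ j = (2 ^ j - 1) + 2 ^ (j + 1) * 2 ^ d := by
            rw [← pow_add]
            have : 1 ≤ 2 ^ j := Nat.one_le_two_pow
            omega
          rw [this, Nat.add_mul_div_left _ _ hp, Nat.div_eq_of_lt, zero_add]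
          rw [pow_succ]
          have : 1 ≤ 2 ^ j := Nat.one_le_two_pow
          omega
        have e2 : (2 ^ (j + 1 + d) + C' + 2 ^ j) / 2 ^ (j + 1) =
            2 ^ d + (C' + 2 ^ j) / 2 ^ (j + 1) := by
          have : 2 ^ (j + 1 + d) + C' + 2 ^ j = (C' + 2 ^ j) + 2 ^ (j + 1) * 2 ^ d := by
            rw [← pow_add]; ring
          rw [this, Nat.add_mul_div_left _ _ hp, add_comm]
        rw [e1, e2]
        simp
      · -- `j = n`
        subst hj
        simp only [beq_self_eq_true, if_true]
        rw [ruler_of_lt (by omega), ruler_of_lt hC']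
        unfold ruler
        have : (2 ^ j + C' + 2 ^ j) / 2 ^ (j + 1) = 1 := by
          have h2 : 2 ^ j + C' + 2 ^ j = C' + 2 ^ (j + 1) * 1 := by rw [pow_succ]; ring
          rw [h2, Nat.add_mul_div_left _ _ (by positivity), Nat.div_eq_of_lt]
          rw [pow_succ]; omega
        rw [this]
      · -- `n < j`
        have hne : (n + 1 == j + 1) = false := by
          simp; omega
        rw [hne]
        have hle : 2 ^ (n + 1) ≤ 2 ^ j := Nat.pow_le_pow_right (by norm_num) hj
        rw [pow_succ] at hle
        rw [ruler_of_lt (by omega), ruler_of_lt (by omega), ruler_of_lt (by omega)]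
        simp

/-- Consecutive pieces of a list glue together. -/
lemma flatten_ofFn_pieces {α : Type*} (l : List α) (C : ℕ → ℕ) (m : ℕ)
    (hmono : ∀ i, i < m → C i ≤ C (i + 1)) :
    (List.ofFn (fun i : Fin m => (l.take (C (i + 1))).drop (C i))).flatten =
      (l.take (C m)).drop (C 0) := by
  induction m with
  | zero =>
    simp only [List.ofFn_zero, List.flatten_nil]
    symm
    rw [List.drop_eq_nil_iff]
    simp
  | succ m ih =>
    rw [List.ofFn_succ_last, List.flatten_append]
    simp only [Fin.val_castSucc, Fin.val_last, List.flatten_cons, List.flatten_nil,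
      List.append_nil]
    rw [ih (fun i hi => hmono i (by omega))]
    have h0m : C 0 ≤ C m := by
      have : ∀ i, i ≤ m → C 0 ≤ C i := by
        intro i hi
        induction i with
        | zero => exact le_refl _
        | succ i ih2 => exact (ih2 (by omega)).trans (hmono i (by omega))
      exact this m le_rfl
    have hm := hmono m (by omega)
    rw [List.drop_take, List.drop_take, List.drop_take]
    have h1 : C (m + 1) - C 0 = (C m - C 0) + (C (m + 1) - C m) := by omega
    rw [h1, List.take_add, List.drop_drop]
    congr 3
    omega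

/-- If all variables of the pattern are reachable, the Zimin word on as many letters as the
pattern has variables encounters the pattern in the abelian sense. -/
theorem encounter_of_reach (p : List ℕ) (S : Finset ℕ) (hS : Reach p.length (fun i => p.getD i 0) S)
    (hp : p.toFinset ⊆ S) (hSp : S ⊆ p.toFinset) :
    ∃ w : List ℕ, w <:+: Z p.toFinset.card ∧ ∃ f : Fin p.length → List ℕ,
      (∀ t, f t ≠ []) ∧ (List.ofFn f).flatten = w ∧
        ∀ a b : Fin p.length, p.get a = p.get b → (f a).Perm (f b) := by
  obtain ⟨k, hk, C, hC1, hC2, hC3, hC4⟩ := good_of_reach hS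
  have hSeq : S = p.toFinset := Subset.antisymm hSp hp
  have hget : ∀ i (hi : i < p.length), p.getD i 0 = p[i] := by
    intro i hi
    simp [hi]
  have hmem : ∀ i, i < p.length → p.getD i 0 ∈ S := by
    intro i hi
    apply hp
    rw [hget i hi]
    simp
  have hlen := Z_length k
  refine ⟨((Z k).take (C p.length)).drop (C 0), ?_,
    fun t => ((Z k).take (C (t + 1))).drop (C t), ?_, ?_, ?_⟩
  · rw [← hSeq]
    have h1 : ((Z k).take (C p.length)).drop (C 0) <:+: Z k :=
      (List.drop_suffix _ _).isInfix.trans (List.take_prefix _ _).isInfix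
    exact h1.trans (Z_prefix hk).isInfix
  · intro t
    have hlt := hC2 t t.2 (hmem t t.2)
    have hb := hC1 (t + 1)
    intro h
    rw [List.drop_eq_nil_iff, List.length_take] at h
    omega
  · exact flatten_ofFn_pieces (Z k) C p.length
      (fun i hi => (hC2 i hi (hmem i hi)).le)
  · intro a b hab
    have hab' : p.getD a 0 = p.getD b 0 := by
      rw [hget a a.2, hget b b.2]
      exact hab
    obtain ⟨-, h⟩ := hC4 a b a.2 b.2 hab'
    rw [List.perm_iff_count]
    intro x
    have hcount : ∀ c d : ℕ, c ≤ d → (((Z k).take d).drop c).count x =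
        ((Z k).take d).count x - ((Z k).take c).count x := by
      intro c d hcd
      have h1 : (Z k).take d = (Z k).take c ++ ((Z k).take d).drop c := by
        conv_lhs => rw [← List.take_append_drop c ((Z k).take d)]
        rw [List.take_take, min_eq_left hcd]
      have h2 := congrArg (List.count x) h1
      rw [List.count_append] at h2
      omega
    rw [hcount _ _ (hC2 a a.2 (hmem a a.2)).le, hcount _ _ (hC2 b b.2 (hmem b b.2)).le]
    cases x with
    | zero =>
      have h0 : ∀ c, ((Z k).take c).count 0 = 0 := by
        intro c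
        rw [List.count_eq_zero]
        intro hmem0
        have := mem_Z (List.mem_of_mem_take hmem0)
        omega
      rw [h0, h0, h0, h0]
    | succ j =>
      rw [count_take_Z k _ (hC1 _), count_take_Z k _ (hC1 _), count_take_Z k _ (hC1 _),
        count_take_Z k _ (hC1 _)]
      have := h j
      omega

end Pool.Agent.Lib.Helper9.Zimin
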