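import Pool.Agent.Lib.Helper9.ZiminMatrix

/-!
# The avoiding word, and unavoidability of the Zimin words
-/

set_option autoImplicit false

namespace Pool.Agent.Lib.Helper9.Zimin

open Finset

section word

variable {K : ℕ} {B : ℕ → ℕ → Bool}

lemma allowed_infinite (hK : 2 ≤ K) (h00 : B 0 0 = true)
    (hcol : ∀ b, b < K → ∃ a, 1 ≤ a ∧ a < K ∧ B a b = true) :
    (Set.ofPred (fun n => allowed K B n = true)).Infinite := by
  apply Set.infinite_of_forall_exists_gt
  intro N
  induction N with
  | zero =>
    obtain ⟨a, ha1, haK, hB⟩ := hcol 0 (by omega)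
    refine ⟨a, ?_, by omega⟩
    have := allowed_iff hK h00 0 a haK
    rw [mul_zero, zero_add, allowed_zero, Nat.zero_mod, hB] at this
    exact this
  | succ N ih =>
    obtain ⟨n, hn, hlt⟩ := ih
    have hn' : allowed K B n = true := hn
    obtain ⟨a, ha1, haK, hB⟩ := hcol (n % K) (Nat.mod_lt _ (by omega))
    refine ⟨K * n + a, ?_, ?_⟩
    · show allowed K B (K * n + a) = true
      rw [allowed_iff hK h00 n a haK, hn', hB]
      rfl
    · have : n ≤ K * n := Nat.le_mul_of_pos_left n (by omega)
      omega

/-- The infinite word: last digits of the allowed numbers. -/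
noncomputable def word (K : ℕ) (B : ℕ → ℕ → Bool) (hK : 0 < K) (i : ℕ) : Fin K :=
  ⟨Nat.nth (fun n => allowed K B n = true) i % K, Nat.mod_lt _ hK⟩

lemma W_nth (hK : 0 < K) (hinf : (Set.ofPred (fun n => allowed K B n = true)).Infinite)
    (C : ℕ) (a : Fin K) :
    W K B (Nat.nth (fun n => allowed K B n = true) C) a =
      (((List.range C).map (word K B hK)).count a : ℤ) := by
  have hWf : ∀ c, W K B c a =
      ∑ j ∈ (range c).filter (fun n => allowed K B n = true), if j % K = a then 1 else 0 := by
    intro c
    unfold W stp
    rw [sum_filter]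
    refine sum_congr rfl fun j _ => ?_
    by_cases h : allowed K B j = true <;> simp [h]
  induction C with
  | zero =>
    rw [Nat.nth_zero_of_zero allowed_zero]
    simp [W]
  | succ C ih =>
    rw [hWf, Nat.filter_range_nth_eq_insert_of_infinite hinf, sum_insert (by simp), ← hWf, ih,
      List.range_succ, List.map_append, List.count_append]
    simp only [List.map_cons, List.map_nil, List.count_singleton]
    push_cast
    rw [add_comm]
    congr 1
    unfold word
    by_cases h : Nat.nth (fun n => allowed K B n = true) C % K = a
    · rw [if_pos h]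
      simp [h]
    · rw [if_neg h]
      simp [Fin.ext_iff, h]

end word

/-- The pieces of a factor of an infinite word. -/
lemma pieces {α : Type*} (x : ℕ → α) (LL : List (List α)) :
    ∀ (i0 len : ℕ), LL.flatten = (List.range len).map (fun t => x (i0 + t)) →
      ∀ t (ht : t < LL.length), LL[t] = (List.range (LL[t]).length).map
        (fun s => x (i0 + ((LL.map List.length).take t).sum + s)) := by
  induction LL with
  | nil => intro i0 len _ t ht; simp at ht
  | cons l LL ih =>
    intro i0 len h t ht
    rw [List.flatten_cons] at h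
    have hlen : l.length + LL.flatten.length = len := by
      have := congrArg List.length h
      simpa using this
    have hl : l = (List.range l.length).map (fun s => x (i0 + s)) := by
      have h1 := congrArg (List.take l.length) h
      rw [List.take_left' rfl, ← List.map_take, List.take_range,
        Nat.min_eq_left (by omega)] at h1
      exact h1
    have hLL : LL.flatten = (List.range (len - l.length)).map (fun t => x (i0 + l.length + t)) := by
      have h1 := congrArg (List.drop l.length) h
      rw [List.drop_left' rfl] at h1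
      rw [h1]
      apply List.ext_getElem
      · simp
      · intro n h2 h3
        simp [add_assoc]
    cases t with
    | zero =>
      simp only [List.getElem_cons_zero, List.take_zero, List.sum_nil, add_zero]
      exact hl
    | succ t =>
      simp only [List.getElem_cons_succ, List.map_cons, List.take_succ_cons, List.sum_cons]
      have := ih (i0 + l.length) (len - l.length) hLL t (by simpa using ht)
      conv_lhs => rw [this]
      simp only [add_assoc]

/-- Every abelian occurrence of the pattern in the word yields reachability of all variables. -/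
theorem reach_of_encounter {K : ℕ} {B : ℕ → ℕ → Bool} (hK : 3 ≤ K) (h00 : B 0 0 = true)
    (hcol : ∀ b, b < K → ∃ a, 1 ≤ a ∧ a < K ∧ B a b = true)
    (p : List ℕ) (lo : ℕ → ℕ) (hlo1 : 1 ≤ lo 0) (hlomono : Monotone lo)
    (hloK : lo (p.length + 2) ≤ K)
    (hnd : ∀ t, t < p.length + 2 → Nondeg K B (lo t) (lo (t + 1)))
    (hKpos : 0 < K) (i0 len : ℕ) (f : Fin p.length → List (Fin K)) (hne : ∀ t, f t ≠ [])
    (hflat : (List.ofFn f).flatten = (List.range len).map (fun t => word K B hKpos (i0 + t)))
    (hperm : ∀ a b : Fin p.length, p.get a = p.get b → (f a).Perm (f b)) :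
    ∃ S, Reach p.length (fun i => p.getD i 0) S ∧ p.toFinset ⊆ S := by
  have hinf := allowed_infinite (by omega) h00 hcol
  set P : ℕ → Prop := fun n => allowed K B n = true with hP
  -- cut positions
  let C : ℕ → ℕ := fun j => i0 + (((List.ofFn f).map List.length).take j).sum
  have hCsucc : ∀ (t : ℕ) (ht : t < p.length), C (t + 1) = C t + (f ⟨t, ht⟩).length := by
    intro t ht
    simp only [C]
    rw [List.take_add_one]
    rw [List.getElem?_eq_getElem (by simpa using ht)]
    simp only [List.sum_append]
    simp [add_assoc]
  have hpiece : ∀ (t : ℕ) (ht : t < p.length), f ⟨t, ht⟩ =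
      (List.range (f ⟨t, ht⟩).length).map (fun s => word K B hKpos (C t + s)) := by
    intro t ht
    have := pieces (word K B hKpos) (List.ofFn f) i0 len hflat t (by simpa using ht)
    simp only [List.getElem_ofFn] at this
    exact this
  have hcount : ∀ (t : ℕ) (ht : t < p.length) (a : Fin K),
      W K B (Nat.nth P (C (t + 1))) a - W K B (Nat.nth P (C t)) a = ((f ⟨t, ht⟩).count a : ℤ) := by
    intro t ht a
    rw [W_nth hKpos hinf, W_nth hKpos hinf, hCsucc t ht, List.range_add, List.map_append,
      List.count_append]
    have : (f ⟨t, ht⟩) = List.map (word K B hKpos)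
        (List.map (fun x => C t + x) (List.range (f ⟨t, ht⟩).length)) := by
      conv_lhs => rw [hpiece t ht]
      rw [List.map_map]
      rfl
    rw [← this]
    push_cast
    ring
  have hCmono : ∀ i, i < p.length → C i ≤ C (i + 1) := by
    intro i hi
    rw [hCsucc i hi]
    exact Nat.le_add_right _ _
  have hget : ∀ i (hi : i < p.length), p.getD i 0 = p.get ⟨i, hi⟩ := by
    intro i hi
    simp [hi]
  obtain ⟨S, hS, hmem⟩ := reach_of_walk hK h00 p.length (fun i => p.getD i 0) lo hlo1 hlomono hloK
    hnd (Nat.nth P (C p.length)) (fun i => Nat.nth P (C i))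
    (fun i hi => Nat.nth_monotone hinf (hCmono i hi)) le_rfl (by
      intro i j hi hj hij a ha
      have hij' : p.get ⟨i, hi⟩ = p.get ⟨j, hj⟩ := by
        rw [← hget, ← hget]; exact hij
      have h1 := hcount i hi ⟨a, ha⟩
      have h2 := hcount j hj ⟨a, ha⟩
      have h3 := (hperm ⟨i, hi⟩ ⟨j, hj⟩ hij').count_eq ⟨a, ha⟩
      rw [h3, ← h2] at h1
      exact h1)
  refine ⟨S, hS, ?_⟩
  intro y hy
  rw [List.mem_toFinset, List.mem_iff_get] at hy
  obtain ⟨⟨i, hi⟩, rfl⟩ := hy
  rw [← hget i hi]
  apply hmem i hi
  obtain ⟨a, ha⟩ := List.exists_mem_of_ne_nil _ (hne ⟨i, hi⟩)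
  refine ⟨a, a.2, ?_⟩
  have h1 := hcount i hi a
  have h2 : 0 < (f ⟨i, hi⟩).count a := List.count_pos_iff.mpr ha
  intro heq
  rw [heq] at h1
  omega

lemma reach_subset {m : ℕ} {v : ℕ → ℕ} {S : Finset ℕ} (h : Reach m v S) :
    S ⊆ (range m).image v := by
  induction h with
  | empty => exact empty_subset _
  | step S φ h01 hc hpos hS ih =>
    apply union_subset ih
    apply image_subset_image
    exact filter_subset _ _

/-- Unavoidability of the Zimin words in infinite words over a finite alphabet, with a uniform
bound on the position. -/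
theorem zimin_unavoidable {α : Type*} [Fintype α] (n : ℕ) :
    ∃ N : ℕ, ∀ x : ℕ → α, ∃ h : ℕ → List α, (∀ i, h i ≠ []) ∧ ∃ s L, s + L ≤ N ∧
      (Z n).flatMap h = (List.range L).map (fun t => x (s + t)) := by
  classical
  induction n with
  | zero =>
    refine ⟨0, fun x => ⟨fun _ => [x 0], fun _ => by simp, 0, 0, le_rfl, ?_⟩⟩
    simp [Z_zero]
  | succ n ih =>
    obtain ⟨N, hN⟩ := ih
    refine ⟨(N + 1) * (Fintype.card (Fin N → α) + 1), fun x => ?_⟩
    -- two equal blocks
    let b : Fin (Fintype.card (Fin N → α) + 1) → (Fin N → α) := fun j t => x ((N + 1) * j + t)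
    obtain ⟨j1, j2, hne, hb⟩ := Fintype.exists_ne_map_eq_of_card_lt b (by simp)
    wlog hlt : j1 < j2 generalizing j1 j2
    · exact this j2 j1 hne.symm hb.symm (lt_of_le_of_ne (not_lt.mp hlt) hne.symm)
    obtain ⟨h, hh, s, L, hsL, hZ⟩ := hN (fun t => x ((N + 1) * j1 + t))
    have hltn : (j1 : ℕ) + 1 ≤ j2 := hlt
    have hj2 : (j2 : ℕ) < Fintype.card (Fin N → α) + 1 := j2.2
    set A := (N + 1) * (j1 : ℕ) + s with hA
    set D := (N + 1) * (j2 : ℕ) + s with hD
    have hAD : A + (N + 1) ≤ D := by
      have : (N + 1) * ((j1 : ℕ) + 1) ≤ (N + 1) * (j2 : ℕ) := Nat.mul_le_mul_left _ hltn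
      rw [Nat.mul_succ] at this
      omega
    have hZ1 : (Z n).flatMap h = (List.range L).map (fun t => x (A + t)) := by
      rw [hZ]
      apply List.map_congr_left
      intro t _
      simp only [hA, add_assoc]
    have hZ2 : (Z n).flatMap h = (List.range L).map (fun t => x (D + t)) := by
      rw [hZ]
      apply List.map_congr_left
      intro t ht
      rw [List.mem_range] at ht
      have := congrFun hb ⟨s + t, by omega⟩
      simp only [b] at this
      rw [hD, add_assoc]
      exact this
    let mid : List α := (List.range (D - (A + L))).map (fun t => x (A + L + t))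
    have hmid : mid ≠ [] := by
      simp only [mid, ne_eq, List.map_eq_nil_iff, List.range_eq_nil]
      omega
    refine ⟨Function.update h (n + 1) mid, ?_, A, (D - A) + L, ?_, ?_⟩
    · intro i
      by_cases hi : i = n + 1
      · subst hi; simp [hmid]
      · rw [Function.update_of_ne hi]
        exact hh i
    · have h1 : (N + 1) * ((j2 : ℕ) + 1) ≤ (N + 1) * (Fintype.card (Fin N → α) + 1) :=
        Nat.mul_le_mul_left _ hj2
      rw [Nat.mul_succ] at h1
      omega
    · have hcongr : (Z n).flatMap (Function.update h (n + 1) mid) = (Z n).flatMap h := by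
        apply List.flatMap_congr
        intro a ha
        have := mem_Z ha
        rw [Function.update_of_ne (by omega)]
      rw [Z_succ, List.flatMap_append, List.flatMap_append, hcongr]
      simp only [List.flatMap_cons, List.flatMap_nil, List.append_nil, Function.update_self]
      have hsplit : (D - A) + L = L + (D - (A + L)) + L := by omega
      rw [hsplit, List.range_add, List.map_append, List.range_add, List.map_append]
      congr 1
      · rw [hZ1, List.map_map]
        congr 1
        simp only [mid]
        apply List.map_congr_left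
        intro t _
        simp [add_assoc]
      · rw [hZ2, List.map_map]
        apply List.map_congr_left
        intro t _
        simp only [Function.comp]
        congr 1
        omega

end Pool.Agent.Lib.Helper9.Zimin
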